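import Mathlib
import Pool.Agent.H715R2.Littlewood

/-! # Integral matrices of units acting on a cubic module -/

open Filter Topology Matrix NumberField

namespace Pool.Agent.N759.LC

open H715R2

/-- the matrix of a unit -/
theorem exists_act_matrix {K : Type*} [Field K] [NumberField K] {d : ℕ}
    (b : Module.Basis (Fin d) ℚ K) (N : ℕ)
    (act : ∀ u : (𝓞 K)ˣ, ∀ x : Fin d → ℤ, ∃ y : Fin d → ℤ,
      ∑ j, (y j : ℚ) • b j = (((u ^ N : (𝓞 K)ˣ) : 𝓞 K) : K) * ∑ j, (x j : ℚ) • b j)
    (v : (𝓞 K)ˣ) :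
    ∃ γ : Matrix (Fin d) (Fin d) ℤ, IsUnit γ.det ∧
      ∀ (τ : K →+* ℂ) (k : Fin d), ∑ j, τ (b j) * (γ j k : ℂ) = τ (uu N v) * τ (b k) := by
  classical
  choose U hU using fun (v : (𝓞 K)ˣ) (k : Fin d) => act v (Pi.single k 1)
  have hU' : ∀ v k, ∑ j, (U v k j : ℚ) • b j = uu N v * b k := by
    intro v k
    rw [hU v k]
    have h2 : (∑ j', ((Pi.single k (1 : ℤ) : Fin d → ℤ) j' : ℚ) • b j') = b k := by
      rw [Finset.sum_eq_single k]
      · simp
      · intro j' _ hj'
        simp [Pi.single_eq_of_ne hj']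
      · intro h
        exact absurd (Finset.mem_univ _) h
    rw [h2]
    rfl
  set G : (𝓞 K)ˣ → Matrix (Fin d) (Fin d) ℤ := fun v j k => U v k j with hG
  have hGb : ∀ v k, ∑ j, (G v j k : ℚ) • b j = uu N v * b k := fun v k => hU' v k
  have hmul : ∀ v w, G v * G w = G (v * w) := by
    intro v w
    ext i k
    have h1 : ∑ i, (((G v * G w) i k : ℤ) : ℚ) • b i = ∑ i, ((G (v * w) i k : ℤ) : ℚ) • b i := by
      rw [hGb (v * w) k, uu_mul]
      have h2 : ∀ i, (((G v * G w) i k : ℤ) : ℚ) • b i =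
          ∑ j, (G w j k : ℚ) • ((G v i j : ℚ) • b i) := by
        intro i
        rw [Matrix.mul_apply]
        push_cast
        rw [Finset.sum_smul]
        refine Finset.sum_congr rfl fun j _ => ?_
        rw [smul_smul, mul_comm]
      rw [Finset.sum_congr rfl fun i _ => h2 i, Finset.sum_comm]
      have h3 : ∀ j, ∑ i, (G w j k : ℚ) • ((G v i j : ℚ) • b i) =
          uu N v * ((G w j k : ℚ) • b j) := by
        intro j
        rw [← Finset.smul_sum, hGb v j, Algebra.smul_def, Algebra.smul_def]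
        ring
      rw [Finset.sum_congr rfl fun j _ => h3 j, ← Finset.mul_sum, hGb w k]
      ring
    have h4 := Fintype.linearIndependent_iff.1 b.linearIndependent
      (fun i => (((G v * G w) i k : ℤ) : ℚ) - ((G (v * w) i k : ℤ) : ℚ)) (by
        simp only [sub_smul, Finset.sum_sub_distrib]
        rw [h1, sub_self]) i
    have h5 : (((G v * G w) i k : ℤ) : ℚ) = ((G (v * w) i k : ℤ) : ℚ) := by linarith
    exact_mod_cast h5
  have hone : G 1 = 1 := by
    ext i k
    have h4 := Fintype.linearIndependent_iff.1 b.linearIndependent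
      (fun i => ((G 1 i k : ℤ) : ℚ) - (((1 : Matrix (Fin d) (Fin d) ℤ) i k : ℤ) : ℚ)) (by
        simp only [sub_smul, Finset.sum_sub_distrib]
        rw [hGb 1 k, uu_one, one_mul, sub_eq_zero, Finset.sum_eq_single k]
        · simp
        · intro j _ hj
          simp [Matrix.one_apply_ne hj]
        · intro h
          exact absurd (Finset.mem_univ _) h) i
    have h5 : ((G 1 i k : ℤ) : ℚ) = (((1 : Matrix (Fin d) (Fin d) ℤ) i k : ℤ) : ℚ) := by linarith
    exact_mod_cast h5
  refine ⟨G v, ?_, ?_⟩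
  · refine IsUnit.of_mul_eq_one (G v⁻¹).det ?_
    rw [← det_mul, hmul, mul_inv_cancel, hone, det_one]
  · intro τ k
    rw [← map_mul, ← hGb v k, map_sum]
    refine Finset.sum_congr rfl fun j _ => ?_
    rw [Algebra.smul_def, map_mul]
    simp [mul_comm]

/-- Matrices of units for a rationally independent vector with coordinates in a field of degree at
most three. -/
theorem exists_unit_mats (w : Fin 3 → ℝ) (K : IntermediateField ℚ ℝ) [FiniteDimensional ℚ K]
    (hK : Module.finrank ℚ K ≤ 3) (hmem : ∀ j, w j ∈ K)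
    (hind : ∀ m : Fin 3 → ℤ, ∑ j, w j * (m j : ℝ) = 0 → m = 0) :
    ∃ (_ : NumberField K) (b : Module.Basis (Fin 3) ℚ K) (φ : K →+* ℂ),
      (∀ j, ((b j : K) : ℝ) = w j) ∧ (∀ z : K, φ z = ((z : ℝ) : ℂ)) ∧
      ∃ R : ℝ, 0 ≤ R ∧ ∀ T : ℝ, ∃ (γ : Matrix (Fin 3) (Fin 3) ℤ) (e : (K →+* ℂ) → ℂ) (u : ℝ),
        IsUnit γ.det ∧ (∀ (τ : K →+* ℂ) (k : Fin 3), ∑ j, τ (b j) * (γ j k : ℂ) = e τ * τ (b k)) ∧
        0 < u ∧ e φ = (u : ℂ) ∧ |Real.log u + 2 * T| ≤ R ∧
        ∀ τ : K →+* ℂ, τ ≠ φ → e τ ≠ 0 ∧ |Real.log ‖e τ‖ - T| ≤ R := by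
  classical
  have hNF : NumberField K := { to_charZero := inferInstance, to_finiteDimensional := inferInstance }
  refine ⟨hNF, ?_⟩
  set w' : Fin 3 → K := fun j => ⟨w j, hmem j⟩ with hw
  have hli : LinearIndependent ℚ w' := by
    rw [← LinearIndependent.iff_fractionRing ℤ ℚ]
    rw [Fintype.linearIndependent_iff]
    intro m hm
    have h1 : ∑ j, w j * (m j : ℝ) = 0 := by
      have h2 := congrArg (fun z : K => (z : ℝ)) hm
      simp only [hw] at h2
      push_cast at h2
      rw [← h2]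
      refine Finset.sum_congr rfl fun j _ => ?_
      rw [zsmul_eq_mul]
      ring
    have h2 := hind m h1
    intro j
    rw [h2]; rfl
  have hcard : Fintype.card (Fin 3) = Module.finrank ℚ K := by
    refine le_antisymm ?_ (by simpa using hK)
    exact hli.fintype_card_le_finrank
  let b : Module.Basis (Fin 3) ℚ K := basisOfLinearIndependentOfCardEqFinrank hli hcard
  have hb : ∀ j, b j = w' j := fun j => by
    simp [b, basisOfLinearIndependentOfCardEqFinrank]
  obtain ⟨N, hN, hNe, act⟩ := exists_pow_act (K := K) b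
  let φ : K →+* ℂ := (Complex.ofRealHom : ℝ →+* ℂ).comp (algebraMap K ℝ)
  have hφz : ∀ z : K, φ z = ((z : ℝ) : ℂ) := fun z => rfl
  have hφ : ComplexEmbedding.IsReal φ := by
    rw [ComplexEmbedding.isReal_iff]
    ext z
    simp [φ]
  obtain ⟨R, hR, hnear⟩ := exists_unit_pow_near K N hN
  refine ⟨b, φ, fun j => by rw [hb], hφz, R, hR, fun T => ?_⟩
  have hmk : ∀ τ : K →+* ℂ, InfinitePlace.mk τ = InfinitePlace.mk φ ↔ τ = φ := by
    intro τ
    rw [InfinitePlace.mk_eq_iff]
    constructor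
    · rintro (h | h)
      · exact h
      · have h2 := congrArg ComplexEmbedding.conjugate h
        rw [ComplexEmbedding.isReal_iff.1 hφ] at h2
        have h3 : ComplexEmbedding.conjugate (ComplexEmbedding.conjugate τ) = τ := by
          ext z; simp
        rw [h3] at h2
        exact h2
    · intro h
      exact Or.inl h
  obtain ⟨v, hv⟩ := hnear (fun p => if p = InfinitePlace.mk φ then -(2 * T) else T) (by
    simp only [hmk]
    rw [← Finset.add_sum_erase Finset.univ _ (Finset.mem_univ φ), if_pos rfl,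
      Finset.sum_congr rfl (g := fun _ => T) (fun τ hτ => if_neg (Finset.ne_of_mem_erase hτ)),
      Finset.sum_const, Finset.card_erase_of_mem (Finset.mem_univ _), Finset.card_univ,
      NumberField.Embeddings.card K ℂ, ← hcard, Fintype.card_fin]
    norm_num)
  obtain ⟨γ, hγ, hγb⟩ := exists_act_matrix b N act v
  set x : ℝ := (((v : 𝓞 K) : K) : ℝ) with hx
  have hx0 : x ≠ 0 := by
    rw [hx]
    intro h
    have h1 : ((v : 𝓞 K) : K) = 0 := by
      exact_mod_cast h
    have h2 : (v : 𝓞 K) = 0 := by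
      exact_mod_cast h1
    exact v.ne_zero h2
  have hu : φ (uu N v) = ((x ^ N : ℝ) : ℂ) := by
    rw [hφz, hx]
    norm_cast
  refine ⟨γ, fun τ => τ (uu N v), x ^ N, hγ, hγb, hNe.pow_pos hx0, hu, ?_, ?_⟩
  · have h1 := hv φ
    simp only [if_pos] at h1
    have h2 : ‖φ (((v ^ N : (𝓞 K)ˣ) : 𝓞 K) : K)‖ = x ^ N := by
      have h3 : φ (((v ^ N : (𝓞 K)ˣ) : 𝓞 K) : K) = ((x ^ N : ℝ) : ℂ) := hu
      rw [h3, Complex.norm_real, Real.norm_eq_abs, abs_of_pos (hNe.pow_pos hx0)]
    rw [h2, sub_neg_eq_add] at h1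
    exact h1
  · intro τ hτ
    refine ⟨tau_ne N v τ, ?_⟩
    have h1 := hv τ
    rw [if_neg (by rw [hmk]; exact hτ)] at h1
    exact h1

end Pool.Agent.N759.LC
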