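import Mathlib
import Pool.Agent.N759.LC.UnitMats

/-! # Moving a lattice by units: from an algebraic axis to an algebraic row -/

open Filter Topology Matrix NumberField

namespace Pool.Agent.N759.LC

open H715R2

/-- bounded sequences have limit points -/
theorem exists_subseq (x : ℕ → Matrix (Fin 3) (Fin 3) ℝ) (C : ℝ)
    (hC : ∀ n i j, |x n i j| ≤ C) :
    ∃ (h : Matrix (Fin 3) (Fin 3) ℝ) (φ : ℕ → ℕ), StrictMono φ ∧
      Tendsto (fun n => x (φ n)) atTop (𝓝 h) := by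
  obtain ⟨h, -, φ, hφ, hlim⟩ := (isCompact_box (d := 3) C).tendsto_subseq hC
  exact ⟨h, φ, hφ, hlim⟩

/-- limits of elements of the cone orbits -/
theorem limit_mem_YY {g : Matrix (Fin 3) (Fin 3) ℝ} {x : ℕ → Matrix (Fin 3) (Fin 3) ℝ}
    (hx : ∀ n, x n ∈ closure (OrbN g n)) {φ : ℕ → ℕ} (hφ : StrictMono φ)
    {h : Matrix (Fin 3) (Fin 3) ℝ} (hlim : Tendsto (fun n => x (φ n)) atTop (𝓝 h)) :
    h ∈ YY g := by
  rw [YY, Set.mem_iInter]
  intro N
  refine isClosed_closure.mem_of_tendsto hlim ?_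
  filter_upwards [eventually_ge_atTop N] with n hn
  exact closure_mono (OrbN_anti g (hn.trans hφ.le_apply)) (hx (φ n))

/-- dual basis vector -/
theorem dual_vec {K : IntermediateField ℚ ℝ} [NumberField K]
    (b : Module.Basis (Fin 3) ℚ K) (φ : K →+* ℂ) (hφ : ∀ z : K, φ z = ((z : ℝ) : ℂ))
    (ρ : Fin 3 → ℝ) (s : ℝ) (hs : s ≠ 0)
    (h1 : ∑ j, ((ρ j : ℝ) : ℂ) * φ (b j) = (s : ℂ))
    (h2 : ∀ τ : K →+* ℂ, τ ≠ φ → ∑ j, ((ρ j : ℝ) : ℂ) * τ (b j) = 0) :
    (∀ j, s⁻¹ * ρ j ∈ K) ∧ ∀ m : Fin 3 → ℤ, ∑ j, ρ j * (m j : ℝ) = 0 → m = 0 := by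
  classical
  set c := (Algebra.traceForm ℚ K).dualBasis (traceForm_nondegenerate ℚ K) b with hc
  have htr : ∀ i j, ∑ τ : K →+* ℂ, τ (c i) * τ (b j) = if j = i then 1 else 0 := by
    intro i j
    have h3 : (Algebra.traceForm ℚ K) (c i) (b j) = if j = i then 1 else 0 :=
      LinearMap.BilinForm.apply_dualBasis_left _ _ _ _
    rw [Algebra.traceForm_apply] at h3
    have h4 := trace_eq_sum_embeddings (K := ℚ) (L := K) ℂ (x := c i * b j)
    rw [h3] at h4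
    have h5 : ∑ σ : K →ₐ[ℚ] ℂ, σ (c i * b j) = ∑ τ : K →+* ℂ, τ (c i) * τ (b j) := by
      refine (Fintype.sum_equiv (RingHom.equivRatAlgHom K ℂ) _ _ fun τ => ?_).symm
      simp [RingHom.equivRatAlgHom_apply]
    rw [h5] at h4
    rw [← h4]
    split_ifs <;> simp
  have key : ∀ i, ((ρ i : ℝ) : ℂ) = (s : ℂ) * φ (c i) := by
    intro i
    have h3 : ∑ τ : K →+* ℂ, τ (c i) * ∑ j, ((ρ j : ℝ) : ℂ) * τ (b j) = φ (c i) * s := by
      rw [Finset.sum_eq_single φ]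
      · rw [h1]
      · intro τ _ hτ
        rw [h2 τ hτ, mul_zero]
      · intro h
        exact absurd (Finset.mem_univ _) h
    have h4 : ∑ τ : K →+* ℂ, τ (c i) * ∑ j, ((ρ j : ℝ) : ℂ) * τ (b j) = ((ρ i : ℝ) : ℂ) := by
      have h5 : ∑ τ : K →+* ℂ, τ (c i) * ∑ j, ((ρ j : ℝ) : ℂ) * τ (b j) =
          ∑ j, ((ρ j : ℝ) : ℂ) * ∑ τ : K →+* ℂ, τ (c i) * τ (b j) := by
        simp only [Finset.mul_sum]
        rw [Finset.sum_comm]
        refine Finset.sum_congr rfl fun j _ => Finset.sum_congr rfl fun τ _ => ?_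
        ring
      rw [h5, Finset.sum_eq_single i]
      · rw [htr, if_pos rfl, mul_one]
      · intro j _ hj
        rw [htr, if_neg hj, mul_zero]
      · intro h
        exact absurd (Finset.mem_univ _) h
    rw [← h4, h3, mul_comm]
  have key2 : ∀ i, ρ i = s * ((c i : K) : ℝ) := by
    intro i
    have h3 := key i
    rw [hφ] at h3
    exact_mod_cast h3
  constructor
  · intro j
    rw [key2, ← mul_assoc, inv_mul_cancel₀ hs, one_mul]
    exact (c j).2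
  · intro m hm
    have h3 : s * ∑ j, ((c j : K) : ℝ) * (m j : ℝ) = 0 := by
      rw [← hm, Finset.mul_sum]
      refine Finset.sum_congr rfl fun j _ => ?_
      rw [key2]; ring
    have h4 : ∑ j, ((c j : K) : ℝ) * (m j : ℝ) = 0 := (mul_eq_zero.1 h3).resolve_left hs
    have h5 : ∑ j, (m j : ℚ) • c j = 0 := by
      apply Subtype.ext
      push_cast
      rw [← h4]
      refine Finset.sum_congr rfl fun j _ => ?_
      rw [Algebra.smul_def, mul_comm]
      simp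
    have h6 := Fintype.linearIndependent_iff.1 c.linearIndependent _ h5
    funext j
    exact_mod_cast h6 j

/-- bound for a matrix in terms of its values at the vectors `τ (b j)` -/
theorem entry_bound {K : Type*} [Field K] [NumberField K] (b : Module.Basis (Fin 3) ℚ K) :
    ∃ D : ℝ, 0 ≤ D ∧ ∀ (h : Matrix (Fin 3) (Fin 3) ℝ) (M : ℝ),
      (∀ i (τ : K →+* ℂ), ‖∑ j, ((h i j : ℝ) : ℂ) * τ (b j)‖ ≤ M) → ∀ i j, |h i j| ≤ D * M := by
  classical
  choose c hc using fun k : Fin 3 => embed_surj b (Pi.single k (1 : ℂ))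
  refine ⟨∑ k, ∑ τ : K →+* ℂ, ‖c k τ‖, by positivity, fun h M hM i k => ?_⟩
  have h1 : ((h i k : ℝ) : ℂ) = ∑ τ : K →+* ℂ, c k τ * ∑ j, ((h i j : ℝ) : ℂ) * τ (b j) := by
    have h2 : ∑ τ : K →+* ℂ, c k τ * ∑ j, ((h i j : ℝ) : ℂ) * τ (b j) =
        ∑ j, ((h i j : ℝ) : ℂ) * ∑ τ : K →+* ℂ, c k τ * τ (b j) := by
      simp only [Finset.mul_sum]
      rw [Finset.sum_comm]
      refine Finset.sum_congr rfl fun j _ => Finset.sum_congr rfl fun τ _ => ?_
      ring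
    rw [h2]
    simp only [← hc]
    simp [Pi.single_apply]
  have h2 : |h i k| = ‖((h i k : ℝ) : ℂ)‖ := by
    rw [Complex.norm_real, Real.norm_eq_abs]
  rw [h2, h1]
  refine (norm_sum_le _ _).trans ?_
  have hM0 : 0 ≤ M := (norm_nonneg _).trans (hM i (Classical.arbitrary (K →+* ℂ)))
  calc ∑ τ : K →+* ℂ, ‖c k τ * ∑ j, ((h i j : ℝ) : ℂ) * τ (b j)‖
      ≤ ∑ τ : K →+* ℂ, ‖c k τ‖ * M := by
        refine Finset.sum_le_sum fun τ _ => ?_
        rw [norm_mul]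
        exact mul_le_mul_of_nonneg_left (hM i τ) (norm_nonneg _)
    _ = (∑ τ : K →+* ℂ, ‖c k τ‖) * M := by rw [Finset.sum_mul]
    _ ≤ (∑ k, ∑ τ : K →+* ℂ, ‖c k τ‖) * M := by
        refine mul_le_mul_of_nonneg_right ?_ hM0
        exact Finset.single_le_sum (f := fun k => ∑ τ : K →+* ℂ, ‖c k τ‖)
          (fun k _ => by positivity) (Finset.mem_univ k)

/-- **From an algebraic axis to an algebraic row.** -/
theorem dual_push {g h : Matrix (Fin 3) (Fin 3) ℝ} (hh : h ∈ YY g) (i₀ : Fin 3)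
    (w : Fin 3 → ℝ) (K : IntermediateField ℚ ℝ) [FiniteDimensional ℚ K]
    (hK : Module.finrank ℚ K ≤ 3) (hmem : ∀ j, w j ∈ K)
    (hind : ∀ m : Fin 3 → ℤ, ∑ j, w j * (m j : ℝ) = 0 → m = 0)
    (s : ℝ) (hs : s ≠ 0) (hw : ∀ i, ∑ j, h i j * w j = if i = i₀ then s else 0) :
    ∃ h' ∈ YY g, ∃ s' : ℝ, s' ≠ 0 ∧ (∀ j, s' * h' i₀ j ∈ K) ∧
      ∀ m : Fin 3 → ℤ, ∑ j, h' i₀ j * (m j : ℝ) = 0 → m = 0 := by
  classical
  obtain ⟨hNF, b, φ, hb, hφ, R, hR, hunit⟩ := exists_unit_mats w K hK hmem hind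
  obtain ⟨D, hD, hentry⟩ := entry_bound b
  choose γ e u hγ hγb hu0 heφ huT heτ using fun n : ℕ => hunit (-(n : ℝ))
  set a : ℕ → Fin 3 → ℝ := fun n i => if i = i₀ then (u n)⁻¹ else Real.sqrt (u n) with ha
  have ha0 : ∀ n i, 0 < a n i := by
    intro n i
    simp only [ha]
    split_ifs
    · exact inv_pos.2 (hu0 n)
    · exact Real.sqrt_pos.2 (hu0 n)
  have ha1 : ∀ n, ∏ i, a n i = 1 := by
    intro n
    simp only [ha]
    rw [← Finset.mul_prod_erase Finset.univ _ (Finset.mem_univ i₀), if_pos rfl,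
      Finset.prod_congr rfl (g := fun _ => Real.sqrt (u n))
        (fun j hj => if_neg (Finset.ne_of_mem_erase hj)),
      Finset.prod_const, Finset.card_erase_of_mem (Finset.mem_univ i₀), Finset.card_univ,
      Fintype.card_fin]
    rw [show 3 - 1 = 2 by norm_num, Real.sq_sqrt (hu0 n).le, inv_mul_cancel₀ (hu0 n).ne']
  have hγt : ∀ n, IsUnit (γ n)ᵀ.det := fun n => by rw [det_transpose]; exact hγ n
  set x : ℕ → Matrix (Fin 3) (Fin 3) ℝ := fun n => diagonal (a n) * h * zR (γ n)ᵀ with hx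
  have hxY : ∀ n, x n ∈ YY g := fun n => YY_inv g h hh (a n) (γ n)ᵀ (ha0 n) (ha1 n) (hγt n)
  -- values at the vectors `τ b`
  have hval : ∀ n i (τ : K →+* ℂ), ∑ j, ((x n i j : ℝ) : ℂ) * τ (b j) =
      (a n i : ℂ) * (e n τ * ∑ k, ((h i k : ℝ) : ℂ) * τ (b k)) := by
    intro n i τ
    have h1 : ∀ j, ((x n i j : ℝ) : ℂ) = (a n i : ℂ) * ∑ k, ((h i k : ℝ) : ℂ) * (γ n j k : ℂ) := by
      intro j
      simp only [hx]
      rw [Matrix.mul_assoc, diagonal_mul, Matrix.mul_apply]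
      push_cast
      rfl
    have h2 := fun k => hγb n τ k
    calc ∑ j, ((x n i j : ℝ) : ℂ) * τ (b j)
        = ∑ j, ∑ k, (a n i : ℂ) * ((h i k : ℝ) : ℂ) * (τ (b j) * (γ n j k : ℂ)) := by
          refine Finset.sum_congr rfl fun j _ => ?_
          rw [h1, Finset.mul_sum, Finset.sum_mul]
          refine Finset.sum_congr rfl fun k _ => ?_
          ring
      _ = ∑ k, (a n i : ℂ) * ((h i k : ℝ) : ℂ) * ∑ j, (τ (b j) * (γ n j k : ℂ)) := by
          rw [Finset.sum_comm]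
          refine Finset.sum_congr rfl fun k _ => ?_
          rw [Finset.mul_sum]
      _ = _ := by
          rw [Finset.mul_sum, Finset.mul_sum]
          refine Finset.sum_congr rfl fun k _ => ?_
          rw [h2]
          ring
  have hφval : ∀ i, ∑ k, ((h i k : ℝ) : ℂ) * φ (b k) = if i = i₀ then (s : ℂ) else 0 := by
    intro i
    have h1 : ((∑ j, h i j * w j : ℝ) : ℂ) = ((if i = i₀ then s else 0 : ℝ) : ℂ) := by rw [hw i]
    have h2 : ((if i = i₀ then s else 0 : ℝ) : ℂ) = if i = i₀ then (s : ℂ) else 0 := by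
      split_ifs <;> simp
    rw [← h2, ← h1]
    push_cast
    refine Finset.sum_congr rfl fun k _ => ?_
    rw [hφ, hb]
  -- bound of the values
  set M₀ : ℝ := ∑ i, ∑ τ : K →+* ℂ, ‖∑ k, ((h i k : ℝ) : ℂ) * τ (b k)‖ with hM₀
  have hM₀b : ∀ i (τ : K →+* ℂ), ‖∑ k, ((h i k : ℝ) : ℂ) * τ (b k)‖ ≤ M₀ := by
    intro i τ
    refine (Finset.single_le_sum (f := fun τ : K →+* ℂ => ‖∑ k, ((h i k : ℝ) : ℂ) * τ (b k)‖)
      (fun τ _ => norm_nonneg _) (Finset.mem_univ τ)).trans ?_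
    exact Finset.single_le_sum (f := fun i => ∑ τ : K →+* ℂ, ‖∑ k, ((h i k : ℝ) : ℂ) * τ (b k)‖)
      (fun i _ => Finset.sum_nonneg fun τ _ => norm_nonneg _) (Finset.mem_univ i)
  have hM₀0 : 0 ≤ M₀ := Finset.sum_nonneg fun i _ => Finset.sum_nonneg fun τ _ => norm_nonneg _
  -- sizes
  have hlogu : ∀ n, |Real.log (u n) - 2 * n| ≤ R := by
    intro n
    have := huT n
    rwa [mul_neg, ← sub_eq_add_neg] at this
  have hsize1 : ∀ n (τ : K →+* ℂ), τ ≠ φ → ∀ i, i ≠ i₀ → a n i * ‖e n τ‖ ≤ Real.exp (2 * R) := by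
    intro n τ hτ i hi
    obtain ⟨h1, h2⟩ := heτ n τ hτ
    have h3 : a n i = Real.sqrt (u n) := by simp only [ha]; rw [if_neg hi]
    have h4 : Real.sqrt (u n) = Real.exp (Real.log (u n) / 2) := by
      rw [Real.sqrt_eq_rpow, Real.rpow_def_of_pos (hu0 n)]
      congr 1; ring
    have h5 : ‖e n τ‖ = Real.exp (Real.log ‖e n τ‖) := (Real.exp_log (norm_pos_iff.2 h1)).symm
    rw [h3, h4, h5, ← Real.exp_add]
    apply Real.exp_le_exp.2
    have h6 := (abs_le.1 (hlogu n)).2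
    have h7 := (abs_le.1 h2).2
    linarith
  have hsize2 : ∀ n (τ : K →+* ℂ), τ ≠ φ → a n i₀ * ‖e n τ‖ ≤ Real.exp (2 * R) * Real.exp (-(n : ℝ)) := by
    intro n τ hτ
    obtain ⟨h1, h2⟩ := heτ n τ hτ
    have h3 : a n i₀ = (u n)⁻¹ := by simp [ha]
    have h4 : (u n)⁻¹ = Real.exp (- Real.log (u n)) := by
      rw [Real.exp_neg, Real.exp_log (hu0 n)]
    have h5 : ‖e n τ‖ = Real.exp (Real.log ‖e n τ‖) := (Real.exp_log (norm_pos_iff.2 h1)).symm
    rw [h3, h4, h5, ← Real.exp_add, ← Real.exp_add]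
    apply Real.exp_le_exp.2
    have h6 := (abs_le.1 (hlogu n)).1
    have h7 := (abs_le.1 h2).2
    have h8 : (0 : ℝ) ≤ n := Nat.cast_nonneg n
    linarith
  have hsizeφ : ∀ n, (a n i₀ : ℂ) * e n φ = 1 := by
    intro n
    have h3 : a n i₀ = (u n)⁻¹ := by simp [ha]
    rw [heφ, h3, ← Complex.ofReal_mul, inv_mul_cancel₀ (hu0 n).ne', Complex.ofReal_one]
  have hE1 : (1 : ℝ) ≤ Real.exp (2 * R) := Real.one_le_exp (by linarith)
  have hbound : ∀ n i (τ : K →+* ℂ), ‖∑ j, ((x n i j : ℝ) : ℂ) * τ (b j)‖ ≤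
      Real.exp (2 * R) * M₀ + |s| := by
    intro n i τ
    rw [hval]
    by_cases hτ : τ = φ
    · subst hτ
      rw [hφval]
      by_cases hi : i = i₀
      · subst hi
        rw [if_pos rfl, ← mul_assoc, hsizeφ, one_mul, Complex.norm_real, Real.norm_eq_abs]
        have : 0 ≤ Real.exp (2 * R) * M₀ := by positivity
        linarith
      · rw [if_neg hi, mul_zero, mul_zero, norm_zero]
        positivity
    · have h1 : ‖(a n i : ℂ) * (e n τ * ∑ k, ((h i k : ℝ) : ℂ) * τ (b k))‖ =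
          (a n i * ‖e n τ‖) * ‖∑ k, ((h i k : ℝ) : ℂ) * τ (b k)‖ := by
        rw [norm_mul, norm_mul, Complex.norm_real, Real.norm_eq_abs, abs_of_pos (ha0 n i)]
        ring
      rw [h1]
      have h2 : a n i * ‖e n τ‖ ≤ Real.exp (2 * R) := by
        by_cases hi : i = i₀
        · subst hi
          refine (hsize2 n τ hτ).trans ?_
          have h3 : Real.exp (-(n : ℝ)) ≤ 1 := Real.exp_le_one_iff.2 (by
            have : (0 : ℝ) ≤ n := Nat.cast_nonneg n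
            linarith)
          nlinarith [Real.exp_pos (2 * R)]
        · exact hsize1 n τ hτ i hi
      have h3 : (a n i * ‖e n τ‖) * ‖∑ k, ((h i k : ℝ) : ℂ) * τ (b k)‖ ≤ Real.exp (2 * R) * M₀ :=
        mul_le_mul h2 (hM₀b i τ) (norm_nonneg _) (Real.exp_pos _).le
      have := abs_nonneg s
      linarith
  obtain ⟨h', ψ, hψ, hlim⟩ := exists_subseq x _ (fun n => hentry (x n) _ (hbound n))
  have hh' : h' ∈ YY g := (YY_closed g).mem_of_tendsto hlim (Eventually.of_forall fun n => hxY _)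
  -- the row `i₀` of the limit
  have hcont : ∀ τ : K →+* ℂ, Tendsto (fun n => ∑ j, ((x (ψ n) i₀ j : ℝ) : ℂ) * τ (b j)) atTop
      (𝓝 (∑ j, ((h' i₀ j : ℝ) : ℂ) * τ (b j))) := by
    intro τ
    refine tendsto_finsetSum _ fun j _ => ?_
    refine Tendsto.mul_const _ ?_
    have h1 : Tendsto (fun n => x (ψ n) i₀ j) atTop (𝓝 (h' i₀ j)) :=
      ((continuous_apply_apply i₀ j).tendsto h').comp hlim
    exact (Complex.continuous_ofReal.tendsto _).comp h1
  have hlimφ : ∑ j, ((h' i₀ j : ℝ) : ℂ) * φ (b j) = (s : ℂ) := by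
    refine tendsto_nhds_unique (hcont φ) ?_
    have h1 : ∀ n, ∑ j, ((x (ψ n) i₀ j : ℝ) : ℂ) * φ (b j) = (s : ℂ) := by
      intro n
      rw [hval, hφval, if_pos rfl, ← mul_assoc, hsizeφ, one_mul]
    simp only [h1]
    exact tendsto_const_nhds
  have hlimτ : ∀ τ : K →+* ℂ, τ ≠ φ → ∑ j, ((h' i₀ j : ℝ) : ℂ) * τ (b j) = 0 := by
    intro τ hτ
    refine tendsto_nhds_unique (hcont τ) ?_
    refine squeeze_zero_norm (a := fun n => Real.exp (2 * R) * M₀ * Real.exp (-((ψ n : ℕ) : ℝ))) ?_ ?_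
    · intro n
      rw [hval]
      have h1 : ‖(a (ψ n) i₀ : ℂ) * (e (ψ n) τ * ∑ k, ((h i₀ k : ℝ) : ℂ) * τ (b k))‖ =
          (a (ψ n) i₀ * ‖e (ψ n) τ‖) * ‖∑ k, ((h i₀ k : ℝ) : ℂ) * τ (b k)‖ := by
        rw [norm_mul, norm_mul, Complex.norm_real, Real.norm_eq_abs, abs_of_pos (ha0 _ i₀)]
        ring
      rw [h1]
      have h2 := hsize2 (ψ n) τ hτ
      calc (a (ψ n) i₀ * ‖e (ψ n) τ‖) * ‖∑ k, ((h i₀ k : ℝ) : ℂ) * τ (b k)‖
          ≤ (Real.exp (2 * R) * Real.exp (-((ψ n : ℕ) : ℝ))) * M₀ :=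
            mul_le_mul h2 (hM₀b i₀ τ) (norm_nonneg _) (by positivity)
        _ = _ := by ring
    · have h1 : Tendsto (fun n : ℕ => Real.exp (-((ψ n : ℕ) : ℝ))) atTop (𝓝 0) := by
        refine Real.tendsto_exp_neg_atTop_nhds_zero.comp ?_
        exact tendsto_natCast_atTop_atTop.comp hψ.tendsto_atTop
      have := h1.const_mul (Real.exp (2 * R) * M₀)
      rwa [mul_zero] at this
  obtain ⟨h3, h4⟩ := dual_vec b φ hφ (h' i₀) s hs hlimφ hlimτ
  exact ⟨h', hh', s⁻¹, inv_ne_zero hs, h3, h4⟩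

end Pool.Agent.N759.LC
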