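import Mathlib
import Pool.Agent.N759.LC.Push

/-! # Face limits with a cubic last row -/

open Filter Topology Matrix NumberField

namespace Pool.Agent.N759.LC

open H715R2

/-- orbits near the face `a 2 = 1` -/
def OrbF (g : Matrix (Fin 3) (Fin 3) ℝ) (N : ℕ) : Set (Matrix (Fin 3) (Fin 3) ℝ) :=
  {h | ∃ (a : Fin 3 → ℝ) (γ : Matrix (Fin 3) (Fin 3) ℤ), (∀ i, 0 < a i) ∧ ∏ i, a i = 1 ∧
    (N : ℝ) ≤ a 1 ∧ 1 ≤ a 2 ∧ IsUnit γ.det ∧ h = diagonal a * g * zR γ}

/-- limits near the face -/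
def YF (g : Matrix (Fin 3) (Fin 3) ℝ) : Set (Matrix (Fin 3) (Fin 3) ℝ) :=
  ⋂ N : ℕ, closure (OrbF g N)

lemma OrbF_subset (g : Matrix (Fin 3) (Fin 3) ℝ) (N : ℕ) : OrbF g N ⊆ Orb g := by
  rintro h ⟨a, γ, ha0, ha1, -, -, hγ, rfl⟩
  exact ⟨a, γ, ha0, ha1, hγ, rfl⟩

lemma OrbF_anti (g : Matrix (Fin 3) (Fin 3) ℝ) {N N' : ℕ} (h : N ≤ N') :
    OrbF g N' ⊆ OrbF g N := by
  rintro x ⟨a, γ, ha0, ha1, h1, h2, hγ, rfl⟩
  have : (N : ℝ) ≤ N' := by exact_mod_cast h
  exact ⟨a, γ, ha0, ha1, this.trans h1, h2, hγ, rfl⟩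

/-- limits of elements near the face -/
theorem limit_mem_YF {g : Matrix (Fin 3) (Fin 3) ℝ} {x : ℕ → Matrix (Fin 3) (Fin 3) ℝ}
    (hx : ∀ n, x n ∈ closure (OrbF g n)) {φ : ℕ → ℕ} (hφ : StrictMono φ)
    {h : Matrix (Fin 3) (Fin 3) ℝ} (hlim : Tendsto (fun n => x (φ n)) atTop (𝓝 h)) :
    h ∈ YF g := by
  rw [YF, Set.mem_iInter]
  intro N
  refine isClosed_closure.mem_of_tendsto hlim ?_
  filter_upwards [eventually_ge_atTop N] with n hn
  exact closure_mono (OrbF_anti g (hn.trans hφ.le_apply)) (hx (φ n))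

/-- moving away from the face -/
lemma face_mul {g h : Matrix (Fin 3) (Fin 3) ℝ} (hh : h ∈ YF g) {b : Fin 3 → ℝ}
    (hb0 : ∀ i, 0 < b i) (hb1 : ∏ i, b i = 1) {δ : Matrix (Fin 3) (Fin 3) ℤ}
    (hδ : IsUnit δ.det) {N : ℕ} (hN : (N : ℝ) ≤ b 2) :
    diagonal b * h * zR δ ∈ closure (OrbN g N) := by
  obtain ⟨N', hN'⟩ := exists_nat_ge ((N : ℝ) / b 1)
  have h1 : h ∈ closure (OrbF g N') := Set.mem_iInter.1 hh N'
  refine map_mem_closure (f := fun h : Matrix (Fin 3) (Fin 3) ℝ => diagonal b * h * zR δ)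
    ?_ h1 ?_
  · exact (continuous_const.matrix_mul continuous_id).matrix_mul continuous_const
  · rintro _ ⟨a, γ, ha0, ha1, h1, h2, hγ, rfl⟩
    refine ⟨fun i => b i * a i, γ * δ, fun i => mul_pos (hb0 i) (ha0 i), ?_, ?_, ?_, ?_, ?_⟩
    · rw [Finset.prod_mul_distrib, hb1, ha1, one_mul]
    · have h3 : (N : ℝ) / b 1 ≤ a 1 := hN'.trans h1
      rw [div_le_iff₀ (hb0 1), mul_comm] at h3
      exact h3
    · have h3 : b 2 * 1 ≤ b 2 * a 2 := mul_le_mul_of_nonneg_left h2 (hb0 2).le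
      rw [mul_one] at h3
      exact hN.trans h3
    · rw [det_mul]; exact hγ.mul hδ
    · rw [zR_mul, ← diagonal_mul_diagonal]
      simp only [Matrix.mul_assoc]

/-- **From a face limit with cubic last row to a limit with the same last row.** -/
theorem face_push {g h : Matrix (Fin 3) (Fin 3) ℝ} (hh : h ∈ YF g)
    (K : IntermediateField ℚ ℝ) [FiniteDimensional ℚ K]
    (hK : Module.finrank ℚ K ≤ 3) (hmem : ∀ j, h 2 j ∈ K)
    (hind : ∀ m : Fin 3 → ℤ, ∑ j, h 2 j * (m j : ℝ) = 0 → m = 0) :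
    ∃ h' ∈ YY g, h' 2 = h 2 := by
  classical
  obtain ⟨hNF, b, φ, hb, hφ, R, hR, hunit⟩ := exists_unit_mats (h 2) K hK hmem hind
  choose γ e u hγ hγb hu0 heφ huT heτ using fun n : ℕ => hunit (n : ℝ)
  choose X hX using fun r : Fin 3 => embed_surj b (fun j => ((h r j : ℝ) : ℂ))
  set a : ℕ → Fin 3 → ℝ := fun n i => if i = 2 then (u n)⁻¹ else Real.sqrt (u n) with ha
  have ha0 : ∀ n i, 0 < a n i := by
    intro n i
    simp only [ha]
    split_ifs
    · exact inv_pos.2 (hu0 n)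
    · exact Real.sqrt_pos.2 (hu0 n)
  have ha1 : ∀ n, ∏ i, a n i = 1 := by
    intro n
    simp only [ha]
    rw [← Finset.mul_prod_erase Finset.univ _ (Finset.mem_univ 2), if_pos rfl,
      Finset.prod_congr rfl (g := fun _ => Real.sqrt (u n))
        (fun j hj => if_neg (Finset.ne_of_mem_erase hj)),
      Finset.prod_const, Finset.card_erase_of_mem (Finset.mem_univ 2), Finset.card_univ,
      Fintype.card_fin]
    rw [show 3 - 1 = 2 by norm_num, Real.sq_sqrt (hu0 n).le, inv_mul_cancel₀ (hu0 n).ne']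
  set x : ℕ → Matrix (Fin 3) (Fin 3) ℝ := fun n => diagonal (a n) * h * zR (γ n) with hx
  have hent : ∀ n r k, x n r k = a n r * ∑ j, h r j * (γ n j k : ℝ) := by
    intro n r k
    simp only [hx]
    rw [Matrix.mul_assoc, diagonal_mul, Matrix.mul_apply]
    rfl
  -- the last row
  have hrow2 : ∀ n k, x n 2 k = h 2 k := by
    intro n k
    have h1 := hγb n φ k
    have h2 : ((∑ j, h 2 j * (γ n j k : ℝ) : ℝ) : ℂ) = ((u n * h 2 k : ℝ) : ℂ) := by
      push_cast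
      have h3 : ∀ j, φ (b j) = ((h 2 j : ℝ) : ℂ) := fun j => by rw [hφ, hb]
      rw [← h3, ← heφ, ← h1]
      refine Finset.sum_congr rfl fun j _ => ?_
      rw [h3]
    have h3 : ∑ j, h 2 j * (γ n j k : ℝ) = u n * h 2 k := by exact_mod_cast h2
    rw [hent, h3]
    have h4 : a n 2 = (u n)⁻¹ := by simp [ha]
    rw [h4, ← mul_assoc, inv_mul_cancel₀ (hu0 n).ne', one_mul]
  -- sizes
  have hE0 : 0 ≤ Real.exp (2 * R) := (Real.exp_pos _).le
  have hsize : ∀ n (τ : K →+* ℂ), Real.sqrt (u n) * ‖e n τ‖ ≤ Real.exp (2 * R) := by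
    intro n τ
    have h4 : Real.sqrt (u n) = Real.exp (Real.log (u n) / 2) := by
      rw [Real.sqrt_eq_rpow, Real.rpow_def_of_pos (hu0 n)]
      congr 1; ring
    have h6 := (abs_le.1 (huT n)).2
    have h8 : (0 : ℝ) ≤ n := Nat.cast_nonneg n
    by_cases hτ : τ = φ
    · rw [hτ, heφ, Complex.norm_real, Real.norm_eq_abs, abs_of_pos (hu0 n), h4]
      nth_rewrite 2 [← Real.exp_log (hu0 n)]
      rw [← Real.exp_add]
      apply Real.exp_le_exp.2
      linarith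
    · obtain ⟨h1, h2⟩ := heτ n τ hτ
      have h5 : ‖e n τ‖ = Real.exp (Real.log ‖e n τ‖) := (Real.exp_log (norm_pos_iff.2 h1)).symm
      rw [h4, h5, ← Real.exp_add]
      apply Real.exp_le_exp.2
      have h7 := (abs_le.1 h2).2
      linarith
  set M : ℝ := ∑ r, ∑ k, (∑ τ : K →+* ℂ, ‖X r τ‖ * ‖τ (b k)‖ + |h r k|) with hM
  have hMb : ∀ r k, ∑ τ : K →+* ℂ, ‖X r τ‖ * ‖τ (b k)‖ + |h r k| ≤ M := by
    intro r k
    refine (Finset.single_le_sum (f := fun k => ∑ τ : K →+* ℂ, ‖X r τ‖ * ‖τ (b k)‖ + |h r k|)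
      (fun k _ => by positivity) (Finset.mem_univ k)).trans ?_
    exact Finset.single_le_sum
      (f := fun r => ∑ k, (∑ τ : K →+* ℂ, ‖X r τ‖ * ‖τ (b k)‖ + |h r k|))
      (fun r _ => by positivity) (Finset.mem_univ r)
  have hbound : ∀ n r k, |x n r k| ≤ (Real.exp (2 * R) + 1) * M := by
    intro n r k
    have hT0 : 0 ≤ ∑ τ : K →+* ℂ, ‖X r τ‖ * ‖τ (b k)‖ := by positivity
    have hM0 : 0 ≤ M := (add_nonneg hT0 (abs_nonneg _)).trans (hMb r k)
    by_cases hr : r = 2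
    · subst hr
      rw [hrow2]
      have := hMb 2 k
      nlinarith
    · have h1 : a n r = Real.sqrt (u n) := by simp only [ha]; rw [if_neg hr]
      have h2 : ((∑ j, h r j * (γ n j k : ℝ) : ℝ) : ℂ) = ∑ τ : K →+* ℂ, X r τ * (e n τ * τ (b k)) := by
        push_cast
        simp only [hX]
        calc ∑ j, (∑ τ : K →+* ℂ, X r τ * τ (b j)) * (γ n j k : ℂ)
            = ∑ j, ∑ τ : K →+* ℂ, X r τ * (τ (b j) * (γ n j k : ℂ)) := by
              refine Finset.sum_congr rfl fun j _ => ?_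
              rw [Finset.sum_mul]
              refine Finset.sum_congr rfl fun τ _ => ?_
              ring
          _ = ∑ τ : K →+* ℂ, X r τ * ∑ j, τ (b j) * (γ n j k : ℂ) := by
              rw [Finset.sum_comm]
              refine Finset.sum_congr rfl fun τ _ => ?_
              rw [Finset.mul_sum]
          _ = _ := Finset.sum_congr rfl fun τ _ => by rw [hγb]
      have h3 : |∑ j, h r j * (γ n j k : ℝ)| ≤ ∑ τ : K →+* ℂ, ‖X r τ‖ * (‖e n τ‖ * ‖τ (b k)‖) := by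
        rw [← Real.norm_eq_abs, ← Complex.norm_real, h2]
        refine (norm_sum_le _ _).trans (le_of_eq ?_)
        refine Finset.sum_congr rfl fun τ _ => ?_
        rw [norm_mul, norm_mul]
      rw [hent, h1, abs_mul, abs_of_nonneg (Real.sqrt_nonneg _)]
      have h4 : Real.sqrt (u n) * |∑ j, h r j * (γ n j k : ℝ)| ≤
          ∑ τ : K →+* ℂ, Real.exp (2 * R) * (‖X r τ‖ * ‖τ (b k)‖) := by
        refine (mul_le_mul_of_nonneg_left h3 (Real.sqrt_nonneg _)).trans ?_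
        rw [Finset.mul_sum]
        refine Finset.sum_le_sum fun τ _ => ?_
        have := mul_le_mul_of_nonneg_right (hsize n τ)
          (mul_nonneg (norm_nonneg (X r τ)) (norm_nonneg (τ (b k))))
        linarith
      rw [← Finset.mul_sum] at h4
      have h5 : ∑ τ : K →+* ℂ, ‖X r τ‖ * ‖τ (b k)‖ ≤ M :=
        (le_add_of_nonneg_right (abs_nonneg _)).trans (hMb r k)
      have h6 := mul_le_mul_of_nonneg_left h5 hE0
      nlinarith
  obtain ⟨h', ψ, hψ, hlim⟩ := exists_subseq x _ hbound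
  refine ⟨h', ?_, ?_⟩
  · rw [YY, Set.mem_iInter]
    intro N
    refine isClosed_closure.mem_of_tendsto hlim ?_
    obtain ⟨N₁, hN₁⟩ := exists_nat_ge ((N : ℝ) + R)
    filter_upwards [eventually_ge_atTop N₁] with n hn
    refine face_mul hh (ha0 _) (ha1 _) (hγ _) ?_
    have h4 : a (ψ n) 2 = (u (ψ n))⁻¹ := by simp [ha]
    have h5 : (N₁ : ℝ) ≤ ψ n := by exact_mod_cast hn.trans hψ.le_apply
    have h6 := (abs_le.1 (huT (ψ n))).2
    have h7 : (N : ℝ) ≤ - Real.log (u (ψ n)) := by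
      have h8 : (0 : ℝ) ≤ (ψ n : ℝ) := Nat.cast_nonneg _
      linarith
    rw [h4, ← Real.exp_log (inv_pos.2 (hu0 (ψ n))), Real.log_inv]
    refine h7.trans ?_
    have := Real.add_one_le_exp (- Real.log (u (ψ n)))
    linarith
  · funext k
    have h1 : Tendsto (fun n => x (ψ n) 2 k) atTop (𝓝 (h' 2 k)) :=
      ((continuous_apply_apply 2 k).tendsto h').comp hlim
    refine tendsto_nhds_unique h1 ?_
    simp only [hrow2]
    exact tendsto_const_nhds

/-- a face limit whose last row is rationally dependent gives small products -/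
theorem face_dep {α β ν : ℝ} (hν0 : 0 < ν)
    (hν : ∀ q p r : ℤ, q ≠ 0 → ν ≤ |(q : ℝ) * (α * q - p) * (β * q - r)|)
    {h : Matrix (Fin 3) (Fin 3) ℝ} (hh : h ∈ YF (LLm α β)) (m : Fin 3 → ℤ) (hm : m ≠ 0)
    (h0 : ∑ j, h 2 j * (m j : ℝ) = 0) : False := by
  set ρ : ℝ := ∑ i, |(h *ᵥ iR m) i| + 1 with hρ
  have hcont : ∀ i, Continuous (fun h' : Matrix (Fin 3) (Fin 3) ℝ => |(h' *ᵥ iR m) i|) := by
    intro i
    refine continuous_abs.comp ?_
    unfold mulVec dotProduct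
    exact continuous_finsetSum _ fun j _ => (continuous_apply_apply i j).mul continuous_const
  have h20 : (h *ᵥ iR m) 2 = 0 := h0
  have hF0 : FF h (iR m) = 0 := by
    rw [FF_eq, Fin.prod_univ_three, h20, mul_zero]
  have hopen : ∀ᶠ h' in 𝓝 h, |FF h' (iR m)| < ν ∧ (∀ i, |(h' *ᵥ iR m) i| < ρ) ∧
      |(h' *ᵥ iR m) 2| < 1 := by
    refine (((continuous_abs.comp (continuous_FF (iR m))).tendsto h).eventually
      (gt_mem_nhds ?_)).and ((Filter.eventually_all.2 fun i => ?_).and ?_)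
    · simp only [Function.comp_apply]
      rw [hF0, abs_zero]; exact hν0
    · refine ((hcont i).tendsto h).eventually (gt_mem_nhds ?_)
      have := Finset.single_le_sum (f := fun i => |(h *ᵥ iR m) i|) (fun i _ => abs_nonneg _)
        (Finset.mem_univ i)
      rw [hρ]; linarith
    · refine ((hcont 2).tendsto h).eventually (gt_mem_nhds ?_)
      rw [h20, abs_zero]; exact one_pos
  obtain ⟨N, hN⟩ := exists_nat_gt ρ
  have hmem : h ∈ closure (OrbF (LLm α β) N) := Set.mem_iInter.1 hh N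
  obtain ⟨h', ⟨h1, h2, h3⟩, ⟨a, γ, ha0, ha1, haN1, haN2, hγ, rfl⟩⟩ :=
    mem_closure_iff_nhds.1 hmem _ hopen
  have hne : (γ *ᵥ m) 0 ≠ 0 := by
    intro h0
    obtain ⟨e0, e1, e2⟩ := orb_mulVec α β a γ m
    have hb1 := h2 1
    rw [e1, h0, Int.cast_zero, mul_zero, zero_sub, mul_neg, abs_neg, abs_mul,
      abs_of_pos (ha0 1)] at hb1
    rw [e2, h0, Int.cast_zero, mul_zero, zero_sub, mul_neg, abs_neg, abs_mul,
      abs_of_pos (ha0 2)] at h3
    have key : ∀ z : ℤ, z ≠ 0 → (1 : ℝ) ≤ |(z : ℝ)| := by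
      intro z hz
      rw [← Int.cast_abs]
      exact_mod_cast Int.one_le_abs hz
    have h4 : (γ *ᵥ m) 1 = 0 := by
      by_contra hz
      have := key _ hz
      nlinarith [ha0 1]
    have h5 : (γ *ᵥ m) 2 = 0 := by
      by_contra hz
      have := key _ hz
      nlinarith [ha0 2]
    apply gamma_ne hγ hm
    funext i
    fin_cases i
    · exact h0
    · exact h4
    · exact h5
  have h4 := hν ((γ *ᵥ m) 0) ((γ *ᵥ m) 1) ((γ *ᵥ m) 2) hne
  rw [FF_orb ha1, FF_LLm] at h1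
  exact absurd h4 (not_le.2 h1)

end Pool.Agent.N759.LC
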