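import Mathlib
import Pool.Agent.H715R2.Littlewood

/-! # Limit points with one algebraic row: the products are dense -/

open Filter Topology Matrix NumberField

namespace Pool.Agent.N759.LC

open H715R2

set_option linter.unusedSectionVars false

/-- A limit point with one row which is proportional to a rationally independent vector over a
field of degree at most three leads to a limit point with dense values. -/
theorem row_dense {α β : ℝ}
    {h : Matrix (Fin 3) (Fin 3) ℝ} (hh : h ∈ YY (LLm α β)) (i₀ : Fin 3)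
    (s : ℝ) (hs : s ≠ 0) (K : IntermediateField ℚ ℝ)
    [FiniteDimensional ℚ K] (hK : Module.finrank ℚ K ≤ 3) (hmem : ∀ j, s * h i₀ j ∈ K)
    (hind : ∀ m : Fin 3 → ℤ, ∑ j, h i₀ j * (m j : ℝ) = 0 → m = 0) :
    ∃ h' ∈ YY (LLm α β), VV h' = Set.univ := by
  classical
  by_contra hcontra
  push Not at hcontra
  have hdet : |h.det| = 1 := by rw [abs_det_closure (YY_subset _ hh), LLm_det]
  have hdet0 : h.det ≠ 0 := by
    intro h0
    rw [h0, abs_zero] at hdet
    exact zero_ne_one hdet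
  have hnotdense : ∀ h' ∈ YY (LLm α β), VV h' ≠ Set.univ := hcontra
  obtain ⟨_, D, hD⟩ := build_dat (le_refl 3) h hdet0 i₀ s hs K hK hmem hind
  rcases D.monomial_or_dense with hmono | hdense
  swap
  · have h1 : VV D.g = Set.univ := hdense
    rw [hD] at h1
    exact hnotdense h hh h1
  choose t ht using hmono
  have hbij := D.mono_bij t ht
  obtain ⟨B, c, hBc, hc0, hgB, hBdet, hreal⟩ := D.mono_matrix t ht
  have hBu : IsUnit B.det := isUnit_iff_ne_zero.2 hBdet
  rw [hD] at hgB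
  -- the sequence
  obtain ⟨U, hU⟩ := (𝓝 h).exists_antitone_basis
  have hseq : ∀ n, ∃ x ∈ OrbN (LLm α β) n, x ∈ U n := by
    intro n
    obtain ⟨x, hx1, hx2⟩ := mem_closure_iff_nhds.1 (Set.mem_iInter.1 hh n) _
      (hU.toHasBasis.mem_of_mem trivial : U n ∈ 𝓝 h)
    exact ⟨x, hx2, hx1⟩
  choose hs' hs1 hs2 using hseq
  have hlim : Tendsto hs' atTop (𝓝 h) := hU.tendsto hs2
  set E : ℕ → Matrix (Fin 3) (Fin 3) ℝ := fun n => hs' n * B⁻¹ with hE
  have hEB : ∀ n, E n * B = hs' n := by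
    intro n
    simp only [hE]
    rw [Matrix.mul_assoc, Matrix.nonsing_inv_mul _ hBu, Matrix.mul_one]
  have hdetn : ∀ n, |(hs' n).det| = 1 := fun n => by
    rw [abs_det_orb (OrbN_subset _ _ (hs1 n)), LLm_det]
  -- row 1 is not diagonal
  have hrow : ∀ n, ∃ k, k ≠ 1 ∧ E n 1 k ≠ 0 := by
    intro n
    by_contra hcon
    push Not at hcon
    obtain ⟨a, γ, ha0, ha1, -, -, hγ, hx⟩ := hs1 n
    set m : Fin 3 → ℤ := γ⁻¹ *ᵥ ![0, 0, 1] with hm
    have hγm : γ *ᵥ m = ![0, 0, 1] := by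
      rw [hm, mulVec_mulVec, Matrix.mul_nonsing_inv _ hγ, one_mulVec]
    have hmne : m ≠ 0 := by
      intro h0
      rw [h0, mulVec_zero] at hγm
      have := congrFun hγm 2
      simp at this
    have h1 : (hs' n *ᵥ iR m) 1 = 0 := by
      obtain ⟨-, e1, -⟩ := orb_mulVec α β a γ m
      rw [hx, e1, hγm]
      simp
    have h2 : (hs' n *ᵥ iR m) 1 = E n 1 1 * (B *ᵥ iR m) 1 := by
      rw [← hEB n, ← mulVec_mulVec]
      show ∑ k, E n 1 k * (B *ᵥ iR m) k = _
      rw [Finset.sum_eq_single 1]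
      · intro k _ hk
        rw [hcon k hk, zero_mul]
      · intro h
        exact absurd (Finset.mem_univ _) h
    have h3 : E n 1 1 ≠ 0 := by
      intro h0
      have h4 : (hs' n).det = 0 := by
        refine Matrix.det_eq_zero_of_row_eq_zero 1 fun j => ?_
        rw [← hEB n, Matrix.mul_apply]
        refine Finset.sum_eq_zero fun k _ => ?_
        by_cases hk : k = 1
        · rw [hk, h0, zero_mul]
        · rw [hcon k hk, zero_mul]
      have := hdetn n
      rw [h4, abs_zero] at this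
      exact zero_ne_one this
    have h4 : (B *ᵥ iR m) 1 = 0 := by
      rw [h1] at h2
      exact (mul_eq_zero.1 h2.symm).resolve_left h3
    have h5 : t 1 (∑ j, (m j : ℚ) • D.b j) = 0 := by
      rw [← ev_int]
      have h6 : (((B *ᵥ iR m) 1 : ℝ) : ℂ) = ev D.b (t 1) (iR m) := by
        simp only [mulVec, dotProduct, ev]
        push_cast
        exact Finset.sum_congr rfl fun j _ => by rw [hBc, mul_comm]
      rw [← h6, h4, Complex.ofReal_zero]
    have h6 : ∑ j, (m j : ℚ) • D.b j = 0 := (map_eq_zero _).1 h5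
    have h7 := Fintype.linearIndependent_iff.1 D.b.linearIndependent _ h6
    apply hmne
    funext j
    exact_mod_cast h7 j
  obtain ⟨k₁, hfreq⟩ : ∃ k : Fin 3, ∃ᶠ n in atTop, k ≠ 1 ∧ E n 1 k ≠ 0 := by
    by_contra hcon
    rw [not_exists] at hcon
    have h1 : ∀ᶠ n in atTop, ∀ k : Fin 3, ¬ (k ≠ 1 ∧ E n 1 k ≠ 0) :=
      Filter.eventually_all.2 fun k => not_frequently.1 (hcon k)
    obtain ⟨n, hn⟩ := h1.exists
    obtain ⟨k, hk⟩ := hrow n
    exact hn k hk
  have hk1 : k₁ ≠ 1 := hfreq.exists.choose_spec.1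
  set θ : Fin 3 → ℝ := ![3, -2, -1] with hθ
  have hθinj : Function.Injective θ := by
    intro i j hij
    fin_cases i <;> fin_cases j <;> simp [hθ] at hij ⊢ <;> norm_num at hij
  have hθsum : ∑ j, θ j = 0 := by
    rw [Fin.sum_univ_three]; simp [hθ]; norm_num
  have hθlt : θ 1 < θ k₁ := by
    fin_cases k₁
    · simp [hθ]; norm_num
    · exact absurd rfl hk1
    · simp [hθ]
  obtain ⟨h', φ, a, γ, T, R, hφ, ha0, ha1, hγ, hT0, haT, hlim', hV⟩ :=
    exit_lemma D t hbij hreal B c hBc hc0 hBdet hs' (by rw [← hgB]; exact hlim) 1 one_pos hdetn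
      1 k₁ (hfreq.mono fun n hn => hn.2) θ hθinj hθsum hθlt
  refine hnotdense h' ?_ hV
  rw [YY, Set.mem_iInter]
  intro N
  refine mem_closure_of_tendsto hlim' ?_
  obtain ⟨N₁, hN₁⟩ := exists_nat_ge ((N : ℝ) * Real.exp R)
  filter_upwards [eventually_ge_atTop N₁] with n hn
  obtain ⟨b, δ, hb0, hb1, hbn1, hbn2, hδ, hx⟩ := hs1 (φ n)
  have hφn : (N : ℝ) * Real.exp R ≤ (φ n : ℝ) := by
    refine hN₁.trans ?_
    exact_mod_cast hn.trans hφ.le_apply
  have hlow : ∀ i, θ i ≤ 0 → Real.exp (-R) ≤ a n i := by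
    intro i hi
    rw [← Real.exp_log (ha0 n i)]
    apply Real.exp_le_exp.2
    have h1 := (abs_le.1 (haT n i)).1
    have h2 : T n * θ i ≤ 0 := mul_nonpos_of_nonneg_of_nonpos (hT0 n) hi
    linarith
  have hmul : ∀ x y : ℝ, Real.exp (-R) ≤ x → (φ n : ℝ) ≤ y → (N : ℝ) ≤ x * y := by
    intro x y hx hy
    have h1 : Real.exp (-R) * ((N : ℝ) * Real.exp R) = N := by
      rw [mul_comm, mul_assoc, ← Real.exp_add, add_neg_cancel, Real.exp_zero, mul_one]
    rw [← h1]
    exact mul_le_mul hx (hφn.trans hy) (by positivity) ((Real.exp_pos _).le.trans hx)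
  refine ⟨fun i => a n i * b i, δ * γ n, fun i => mul_pos (ha0 n i) (hb0 i), ?_, ?_, ?_, ?_, ?_⟩
  · rw [Finset.prod_mul_distrib, ha1, hb1, one_mul]
  · exact hmul _ _ (hlow 1 (by simp [hθ])) hbn1
  · exact hmul _ _ (hlow 2 (by simp [hθ])) hbn2
  · rw [det_mul]; exact hδ.mul (hγ n)
  · rw [zR_mul, ← diagonal_mul_diagonal, hx]
    simp only [Matrix.mul_assoc]


/-- nonzero values at points of the limit set are limit values of `q ‖qα‖ ‖qβ‖` -/
theorem cluster' {α β : ℝ} {h : Matrix (Fin 3) (Fin 3) ℝ}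
    (hh : h ∈ YY (LLm α β)) (m : Fin 3 → ℤ) (hm0 : FF h (iR m) ≠ 0) :
    MapClusterPt |FF h (iR m)| atTop (fL α β) := by
  have hm : m ≠ 0 := by
    rintro rfl
    apply hm0
    rw [FF_eq, Fin.prod_univ_three]
    simp [iR, mulVec, dotProduct]
  rw [mapClusterPt_iff_frequently]
  intro s hs
  rw [frequently_atTop]
  intro N₀
  have hFpos : 0 < |FF h (iR m)| := abs_pos.2 hm0
  have hδ : 0 < |(h *ᵥ iR m) 0| := by
    rw [abs_pos]
    intro h0
    rw [FF_eq, Fin.prod_univ_three, h0, zero_mul, zero_mul, abs_zero] at hFpos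
    exact lt_irrefl _ hFpos
  set δ := |(h *ᵥ iR m) 0| with hδdef
  set ρ : ℝ := ∑ i, |(h *ᵥ iR m) i| + 1 with hρ
  have hρ0 : 0 < ρ := by
    have : 0 ≤ ∑ i, |(h *ᵥ iR m) i| := Finset.sum_nonneg fun i _ => abs_nonneg _
    linarith
  have hcont : ∀ i, Continuous (fun h' : Matrix (Fin 3) (Fin 3) ℝ => |(h' *ᵥ iR m) i|) := by
    intro i
    refine continuous_abs.comp ?_
    unfold mulVec dotProduct
    exact continuous_finsetSum _ fun j _ => (continuous_apply_apply i j).mul continuous_const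
  have hopen : ∀ᶠ h' in 𝓝 h, |FF h' (iR m)| ∈ s ∧ (∀ i, |(h' *ᵥ iR m) i| < ρ) ∧
      δ / 2 < |(h' *ᵥ iR m) 0| := by
    refine (((continuous_abs.comp (continuous_FF (iR m))).tendsto h).eventually hs).and
      ((Filter.eventually_all.2 fun i => ?_).and ?_)
    · refine ((hcont i).tendsto h).eventually (gt_mem_nhds ?_)
      have := Finset.single_le_sum (f := fun i => |(h *ᵥ iR m) i|) (fun i _ => abs_nonneg _)
        (Finset.mem_univ i)
      rw [hρ]; linarith
    · exact ((hcont 0).tendsto h).eventually (lt_mem_nhds (by linarith))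
  obtain ⟨N, hN⟩ := exists_nat_gt (2 * ρ + (N₀ : ℝ) / (δ / 2) + 1)
  have hN0 : (0 : ℝ) ≤ (N₀ : ℝ) / (δ / 2) := by positivity
  have hN1 : 1 < (N : ℝ) := by linarith
  have hmem : h ∈ closure (OrbN (LLm α β) N) := Set.mem_iInter.1 hh N
  obtain ⟨h', ⟨h1, h2, h3⟩, ⟨a, γ, ha0, ha1, haN1, haN2, hγ, rfl⟩⟩ :=
    mem_closure_iff_nhds.1 hmem _ hopen
  have hq := first_ne α β ha0 hγ hm (ρ := ρ) (by linarith) (by linarith) (fun i => (h2 i).le)
  obtain ⟨e0, e1, e2⟩ := orb_mulVec α β a γ m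
  set q := (γ *ᵥ m) 0 with hqdef
  set p := (γ *ᵥ m) 1 with hpdef
  set r := (γ *ᵥ m) 2 with hrdef
  have hd1 : |α * q - p| < 1 / 2 := by
    have h4 := h2 1
    rw [e1, abs_mul, abs_of_pos (ha0 1)] at h4
    have h5 : 2 * ρ < a 1 := by linarith
    by_contra hcon
    push Not at hcon
    nlinarith [ha0 1]
  have hd2 : |β * q - r| < 1 / 2 := by
    have h4 := h2 2
    rw [e2, abs_mul, abs_of_pos (ha0 2)] at h4
    have h5 : 2 * ρ < a 2 := by linarith
    by_contra hcon
    push Not at hcon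
    nlinarith [ha0 2]
  refine ⟨q.natAbs, ?_, ?_⟩
  · -- `|q|` is large
    have h4 := h3
    rw [e0, abs_mul, abs_of_pos (ha0 0)] at h4
    have h5 : a 0 * (a 1 * a 2) = 1 := by
      rw [← mul_assoc, ← Fin.prod_univ_three]; exact ha1
    have h6 : (N : ℝ) ≤ a 1 * a 2 := by
      have : (N : ℝ) * 1 ≤ a 1 * a 2 := mul_le_mul haN1 (by linarith) zero_le_one (ha0 1).le
      linarith
    have h7 : a 0 * N ≤ 1 := by
      rw [← h5]; exact mul_le_mul_of_nonneg_left h6 (ha0 0).le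
    have h8 : (δ / 2) * N < |(q : ℝ)| := by
      have h9 : (δ / 2) * N < a 0 * |(q : ℝ)| * N :=
        mul_lt_mul_of_pos_right h4 (by linarith)
      have h10 : a 0 * |(q : ℝ)| * N = (a 0 * N) * |(q : ℝ)| := by ring
      have h11 : (a 0 * N) * |(q : ℝ)| ≤ 1 * |(q : ℝ)| :=
        mul_le_mul_of_nonneg_right h7 (abs_nonneg _)
      linarith
    have h9 : (N₀ : ℝ) / (δ / 2) < N := by linarith
    rw [div_lt_iff₀ (by positivity)] at h9
    have h10 : (N₀ : ℝ) < ((q.natAbs : ℕ) : ℝ) := by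
      rw [Nat.cast_natAbs, Int.cast_abs]
      linarith
    exact_mod_cast h10.le
  · have h4 : fL α β q.natAbs = |FF (diagonal a * LLm α β * zR γ) (iR m)| := by
      rw [FF_orb ha1, FF_LLm, fL, dist_round_natAbs α hd1, dist_round_natAbs β hd2,
        abs_mul, abs_mul, Nat.cast_natAbs, Int.cast_abs]
    rw [h4]
    exact h1


/-- dense values at a limit point: every nonnegative number is a limit value -/
theorem all_cluster {α β : ℝ} {h : Matrix (Fin 3) (Fin 3) ℝ}
    (hh : h ∈ YY (LLm α β)) (hV : VV h = Set.univ) (t : ℝ) (ht : 0 ≤ t) :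
    MapClusterPt t atTop (fL α β) := by
  rw [mapClusterPt_iff_frequently]
  intro U hU
  obtain ⟨W, hWU, hWo, htW⟩ := mem_nhds_iff.1 hU
  -- a positive number in `W`
  obtain ⟨ε, hε, hball⟩ := Metric.isOpen_iff.1 hWo t htW
  have ht' : t + ε / 2 ∈ W := hball (by
    rw [Metric.mem_ball, Real.dist_eq]
    rw [show t + ε / 2 - t = ε / 2 by ring, abs_of_pos (by linarith)]
    linarith)
  have h0 : 0 < t + ε / 2 := by linarith
  have hopen : IsOpen (W ∩ Set.Ioi 0) := hWo.inter isOpen_Ioi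
  have hmem : t + ε / 2 ∈ closure (Set.range fun m : Fin 3 → ℤ => FF h (iR m)) := by
    have : t + ε / 2 ∈ VV h := by rw [hV]; trivial
    exact this
  obtain ⟨x, ⟨hx1, hx2⟩, ⟨m, rfl⟩⟩ := mem_closure_iff.1 hmem _ hopen ⟨ht', h0⟩
  have hx3 : (0 : ℝ) < FF h (iR m) := hx2
  have hcl := cluster' hh m hx3.ne'
  rw [abs_of_pos hx3] at hcl
  rw [mapClusterPt_iff_frequently] at hcl
  refine (hcl W (hWo.mem_nhds hx1)).mono fun q hq => hWU hq

end Pool.Agent.N759.LC
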