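import Mathlib
import Pool.Agent.N759.LC.Push
import Pool.Agent.N759.LC.RowDense

/-! # Limits of rescaled bases -/

open Filter Topology Matrix NumberField

namespace Pool.Agent.N759.LC

open H715R2

/-- rescaled basis -/
noncomputable def sc (α β X Y : ℝ) (V : Matrix (Fin 3) (Fin 3) ℤ) : Matrix (Fin 3) (Fin 3) ℝ :=
  Matrix.of ![fun j => V 0 j / (X * Y), fun j => X * (α * V 0 j - V 1 j),
    fun j => Y * (β * V 0 j - V 2 j)]

/-- rescaled dual basis -/
noncomputable def dsc (α β X Y : ℝ) (U : Matrix (Fin 3) (Fin 3) ℤ) : Matrix (Fin 3) (Fin 3) ℝ :=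
  Matrix.of ![fun j => X * Y * (U 0 j + α * U 1 j + β * U 2 j), fun j => U 1 j / X,
    fun j => U 2 j / Y]

/-- the diagonal matrix -/
noncomputable def av (X Y : ℝ) : Fin 3 → ℝ := ![(X * Y)⁻¹, X, Y]

lemma av_pos {X Y : ℝ} (hX : 0 < X) (hY : 0 < Y) : ∀ i, 0 < av X Y i := by
  intro i
  fin_cases i
  · exact inv_pos.2 (mul_pos hX hY)
  · exact hX
  · exact hY

lemma av_prod {X Y : ℝ} (hX : 0 < X) (hY : 0 < Y) : ∏ i, av X Y i = 1 := by
  rw [Fin.prod_univ_three]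
  show (X * Y)⁻¹ * X * Y = 1
  field_simp

lemma sc_eq (α β X Y : ℝ) (V : Matrix (Fin 3) (Fin 3) ℤ) :
    sc α β X Y V = diagonal (av X Y) * LLm α β * zR V := by
  ext i j
  rw [Matrix.mul_assoc, diagonal_mul, Matrix.mul_apply, Fin.sum_univ_three]
  fin_cases i <;> simp [sc, av, LLm, zR, -mul_eq_mul_left_iff] <;> ring

lemma isUnit_of_abs {V : Matrix (Fin 3) (Fin 3) ℤ} (hV : |V.det| = 1) : IsUnit V.det :=
  Int.isUnit_iff_abs_eq.2 hV

lemma sc_mem {α β X Y : ℝ} {N : ℕ} (hN : 1 ≤ N) (hX : (N : ℝ) ≤ X) (hY : (N : ℝ) ≤ Y)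
    {V : Matrix (Fin 3) (Fin 3) ℤ} (hV : |V.det| = 1) :
    sc α β X Y V ∈ OrbN (LLm α β) N := by
  have hN' : (1 : ℝ) ≤ N := by exact_mod_cast hN
  have hX0 : 0 < X := by linarith
  have hY0 : 0 < Y := by linarith
  exact ⟨av X Y, V, av_pos hX0 hY0, av_prod hX0 hY0, hX, hY, isUnit_of_abs hV, sc_eq α β X Y V⟩

/-- limits of rescaled bases -/
theorem limit_of_sc {α β : ℝ} (C : ℝ) (i : Fin 3) (w : Fin 3 → ℝ)
    (h : ∀ N : ℕ, ∃ X Y : ℝ, (N : ℝ) ≤ X ∧ (N : ℝ) ≤ Y ∧ ∃ V : Matrix (Fin 3) (Fin 3) ℤ,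
      |V.det| = 1 ∧ (∀ k j, |sc α β X Y V k j| ≤ C) ∧ ∀ j, |sc α β X Y V i j - w j| * N ≤ 1) :
    ∃ h' ∈ YY (LLm α β), h' i = w := by
  choose X Y hX hY V hV hC hw using fun N : ℕ => h (N + 1)
  set x : ℕ → Matrix (Fin 3) (Fin 3) ℝ := fun N => sc α β (X N) (Y N) (V N) with hx
  have hxO : ∀ n, x n ∈ OrbN (LLm α β) n := fun n =>
    OrbN_anti _ (Nat.le_succ n) (sc_mem (by omega) (hX n) (hY n) (hV n))
  obtain ⟨h', φ, hφ, hlim⟩ := exists_subseq x C hC
  refine ⟨h', limit_mem_YY (fun n => subset_closure (hxO n)) hφ hlim, ?_⟩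
  funext j
  have h1 : Tendsto (fun n => x (φ n) i j) atTop (𝓝 (h' i j)) :=
    ((continuous_apply_apply i j).tendsto h').comp hlim
  refine tendsto_nhds_unique h1 ?_
  rw [tendsto_iff_norm_sub_tendsto_zero]
  refine squeeze_zero (g := fun n => 1 / ((φ n : ℝ) + 1)) (fun n => norm_nonneg _) ?_ ?_
  · intro n
    have h2 := hw (φ n) j
    rw [Real.norm_eq_abs, le_div_iff₀ (by positivity)]
    push_cast at h2
    exact h2
  · exact (tendsto_one_div_add_atTop_nhds_zero_nat (𝕜 := ℝ)).comp hφ.tendsto_atTop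

/-- signs -/
def sg : Fin 3 → ℝ := ![1, -1, -1]

lemma dsc_inv {α β X Y : ℝ} (hX : 0 < X) (hY : 0 < Y) {U : Matrix (Fin 3) (Fin 3) ℤ}
    (hU : |U.det| = 1) :
    sc α β X Y (U⁻¹)ᵀ * (diagonal sg * dsc α β X Y U)ᵀ = 1 := by
  have hUu := isUnit_of_abs hU
  have h1 : zR (U⁻¹)ᵀ * (zR U)ᵀ = 1 := by
    have h2 : (zR U * zR U⁻¹)ᵀ = 1 := by rw [zR_inv hUu, transpose_one]
    rw [transpose_mul] at h2
    exact h2
  have h2 : (diagonal sg * dsc α β X Y U)ᵀ = (zR U)ᵀ * ((diagonal (fun i => (av X Y i)⁻¹)) * (LLm α β)ᵀ)ᵀ := by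
    rw [← transpose_mul]
    congr 1
    ext i j
    rw [Matrix.mul_assoc, diagonal_mul, diagonal_mul, Matrix.mul_apply, Fin.sum_univ_three]
    fin_cases i <;> simp [sg, dsc, av, LLm, zR] <;> ring
  have h3 : LLm α β * LLm α β = 1 := by
    ext i j
    rw [Matrix.mul_apply, Fin.sum_univ_three]
    fin_cases i <;> fin_cases j <;> simp [LLm]
  have h4 : diagonal (av X Y) * diagonal (fun i => (av X Y i)⁻¹) = 1 := by
    rw [diagonal_mul_diagonal, ← diagonal_one]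
    congr 1
    funext i
    exact mul_inv_cancel₀ (av_pos hX hY i).ne'
  rw [sc_eq, h2, transpose_mul, transpose_transpose, diagonal_transpose]
  calc diagonal (av X Y) * LLm α β * zR (U⁻¹)ᵀ * ((zR U)ᵀ * (LLm α β * diagonal fun i => (av X Y i)⁻¹))
      = diagonal (av X Y) * LLm α β * (zR (U⁻¹)ᵀ * (zR U)ᵀ) *
          (LLm α β * diagonal fun i => (av X Y i)⁻¹) := by simp only [Matrix.mul_assoc]
    _ = diagonal (av X Y) * (LLm α β * LLm α β) * diagonal fun i => (av X Y i)⁻¹ := by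
        rw [h1, Matrix.mul_one]; simp only [Matrix.mul_assoc]
    _ = 1 := by rw [h3, Matrix.mul_one, h4]

/-- entries of an inverse matrix -/
lemma inv_bound {A B : Matrix (Fin 3) (Fin 3) ℝ} (h : A * B = 1) (hdet : |A.det| = 1) {C : ℝ}
    (hB : ∀ i j, |B i j| ≤ C) : ∀ i j, |A i j| ≤ 2 * C ^ 2 := by
  have h1 : A = A.det • B.adjugate := by
    have h2 : B * B.adjugate = B.det • (1 : Matrix (Fin 3) (Fin 3) ℝ) := mul_adjugate B
    have h3 : A * (B * B.adjugate) = B.adjugate := by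
      rw [← Matrix.mul_assoc, h, Matrix.one_mul]
    rw [h2, Matrix.mul_smul, Matrix.mul_one] at h3
    have h4 : A.det * B.det = 1 := by rw [← det_mul, h, det_one]
    rw [← h3, smul_smul, h4, one_smul]
  have hC0 : 0 ≤ C := (abs_nonneg _).trans (hB 0 0)
  have key : ∀ a b c d : ℝ, |a| ≤ C → |b| ≤ C → |c| ≤ C → |d| ≤ C → |a * b - c * d| ≤ 2 * C ^ 2 := by
    intro a b c d ha hb hc hd
    have h5 := abs_sub (a * b) (c * d)
    rw [abs_mul, abs_mul] at h5
    have h6 := mul_le_mul ha hb (abs_nonneg _) hC0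
    have h7 := mul_le_mul hc hd (abs_nonneg _) hC0
    nlinarith
  have key2 : ∀ a b c d : ℝ, |a| ≤ C → |b| ≤ C → |c| ≤ C → |d| ≤ C →
      |-(a * b) + c * d| ≤ 2 * C ^ 2 := by
    intro a b c d ha hb hc hd
    have := key c d a b hc hd ha hb
    rwa [show -(a * b) + c * d = c * d - a * b by ring]
  intro i j
  rw [h1, Matrix.smul_apply, smul_eq_mul, abs_mul, hdet, one_mul, adjugate_fin_three]
  fin_cases i <;> fin_cases j <;> simp only [Matrix.of_apply, Matrix.cons_val'] <;>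
    first
      | exact key _ _ _ _ (hB _ _) (hB _ _) (hB _ _) (hB _ _)
      | exact key2 _ _ _ _ (hB _ _) (hB _ _) (hB _ _) (hB _ _)

/-- **Rows.** -/
theorem main_row {α β : ℝ} (K : IntermediateField ℚ ℝ) [FiniteDimensional ℚ K]
    (hK : Module.finrank ℚ K ≤ 3) (w : Fin 3 → ℝ) (s : ℝ) (hs : s ≠ 0) (hwK : ∀ j, s * w j ∈ K)
    (hw : ∀ m : Fin 3 → ℤ, ∑ j, w j * (m j : ℝ) = 0 → m = 0) (C : ℝ) (i : Fin 3)
    (h : ∀ N : ℕ, ∃ X Y : ℝ, (N : ℝ) ≤ X ∧ (N : ℝ) ≤ Y ∧ ∃ V : Matrix (Fin 3) (Fin 3) ℤ,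
      |V.det| = 1 ∧ (∀ k j, |sc α β X Y V k j| ≤ C) ∧ ∀ j, |sc α β X Y V i j - w j| * N ≤ 1)
    (t : ℝ) (ht : 0 ≤ t) : MapClusterPt t atTop (fL α β) := by
  obtain ⟨h', hh', hi⟩ := limit_of_sc C i w h
  obtain ⟨h'', hh'', hV⟩ := row_dense hh' i s hs K hK (by rw [hi]; exact hwK) (by rw [hi]; exact hw)
  exact all_cluster hh'' hV t ht

/-- **Axes.** -/
theorem main_dual {α β : ℝ} (K : IntermediateField ℚ ℝ) [FiniteDimensional ℚ K]
    (hK : Module.finrank ℚ K ≤ 3) (w : Fin 3 → ℝ) (s : ℝ) (hs : s ≠ 0) (hwK : ∀ j, s * w j ∈ K)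
    (hw : ∀ m : Fin 3 → ℤ, ∑ j, w j * (m j : ℝ) = 0 → m = 0) (C : ℝ) (i : Fin 3)
    (h : ∀ N : ℕ, ∃ X Y : ℝ, (N : ℝ) ≤ X ∧ (N : ℝ) ≤ Y ∧ ∃ U : Matrix (Fin 3) (Fin 3) ℤ,
      |U.det| = 1 ∧ (∀ k j, |dsc α β X Y U k j| ≤ C) ∧ ∀ j, |dsc α β X Y U i j - w j| * N ≤ 1)
    (t : ℝ) (ht : 0 ≤ t) : MapClusterPt t atTop (fL α β) := by
  choose X Y hX hY U hU hC hw' using fun N : ℕ => h (N + 1)
  have hX0 : ∀ N, 0 < X N := fun N => by
    have h1 := hX N
    push_cast at h1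
    have : (0 : ℝ) ≤ N := Nat.cast_nonneg N
    linarith
  have hY0 : ∀ N, 0 < Y N := fun N => by
    have h1 := hY N
    push_cast at h1
    have : (0 : ℝ) ≤ N := Nat.cast_nonneg N
    linarith
  have hVdet : ∀ N, |((U N)⁻¹)ᵀ.det| = 1 := by
    intro N
    rw [det_transpose]
    have h1 : (U N).det * (U N)⁻¹.det = 1 := by
      rw [← det_mul, Matrix.mul_nonsing_inv _ (isUnit_of_abs (hU N)), det_one]
    have h2 := congrArg abs h1
    rw [abs_mul, hU, one_mul, abs_one] at h2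
    exact h2
  set x : ℕ → Matrix (Fin 3) (Fin 3) ℝ := fun N => sc α β (X N) (Y N) ((U N)⁻¹)ᵀ with hx
  have hxO : ∀ n, x n ∈ OrbN (LLm α β) n := fun n =>
    OrbN_anti _ (Nat.le_succ n) (sc_mem (by omega) (hX n) (hY n) (hVdet n))
  have hinv : ∀ n, x n * (diagonal sg * dsc α β (X n) (Y n) (U n))ᵀ = 1 := fun n =>
    dsc_inv (hX0 n) (hY0 n) (hU n)
  have hsg : ∀ k, |sg k| = 1 := by
    intro k
    fin_cases k <;> simp [sg]
  have hxC : ∀ n k j, |x n k j| ≤ 2 * C ^ 2 := by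
    intro n
    refine inv_bound (hinv n) ?_ ?_
    · rw [abs_det_orb (OrbN_subset _ _ (hxO n)), LLm_det]
    · intro k j
      rw [transpose_apply, diagonal_mul, abs_mul, hsg, one_mul]
      exact hC n j k
  obtain ⟨h', φ, hφ, hlim⟩ := exists_subseq x _ hxC
  have hh' : h' ∈ YY (LLm α β) := limit_mem_YY (fun n => subset_closure (hxO n)) hφ hlim
  -- the axis
  have haxis : ∀ k, ∑ j, h' k j * (sg i * w j) = if k = i then 1 else 0 := by
    intro k
    have h1 : ∀ n, ∑ j, x n k j * (sg i * dsc α β (X n) (Y n) (U n) i j) = if k = i then 1 else 0 := by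
      intro n
      have h2 := congrFun (congrFun (hinv n) k) i
      rw [Matrix.mul_apply] at h2
      simp only [transpose_apply, diagonal_mul] at h2
      rw [h2, Matrix.one_apply]
    have h2 : Tendsto (fun n => ∑ j, x (φ n) k j *
        (sg i * dsc α β (X (φ n)) (Y (φ n)) (U (φ n)) i j)) atTop
        (𝓝 (∑ j, h' k j * (sg i * w j))) := by
      refine tendsto_finsetSum _ fun j _ => Tendsto.mul ?_ (Tendsto.const_mul _ ?_)
      · exact ((continuous_apply_apply k j).tendsto h').comp hlim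
      · rw [tendsto_iff_norm_sub_tendsto_zero]
        refine squeeze_zero (g := fun n => 1 / ((φ n : ℝ) + 1)) (fun n => norm_nonneg _) ?_ ?_
        · intro n
          have h2 := hw' (φ n) j
          rw [Real.norm_eq_abs, le_div_iff₀ (by positivity)]
          push_cast at h2
          exact h2
        · exact (tendsto_one_div_add_atTop_nhds_zero_nat (𝕜 := ℝ)).comp hφ.tendsto_atTop
    refine tendsto_nhds_unique h2 ?_
    simp only [h1]
    exact tendsto_const_nhds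
  have hsgne : sg i ≠ 0 := by
    intro h0
    have := hsg i
    rw [h0, abs_zero] at this
    exact zero_ne_one this
  have hsg2 : sg i * sg i = 1 := by
    fin_cases i <;> simp [sg]
  obtain ⟨h'', hh'', s', hs', hs'K, hs'ind⟩ := dual_push hh' i (fun j => s * w j) K hK hwK
    (by
      intro m hm
      apply hw m
      have h1 : s * ∑ j, w j * (m j : ℝ) = 0 := by
        rw [← hm, Finset.mul_sum]
        exact Finset.sum_congr rfl fun j _ => by ring
      exact (mul_eq_zero.1 h1).resolve_left hs)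
    (s * sg i) (mul_ne_zero hs hsgne) (by
      intro k
      have h1 := haxis k
      have h2 : ∑ j, h' k j * (s * w j) = (s * sg i) * ∑ j, h' k j * (sg i * w j) := by
        rw [Finset.mul_sum]
        refine Finset.sum_congr rfl fun j _ => ?_
        linear_combination (-(h' k j * s * w j)) * hsg2
      rw [h2, h1]
      split_ifs
      · rw [mul_one]
      · rw [mul_zero])
  obtain ⟨h3, hh3, hV⟩ := row_dense hh'' i s' hs' K hK hs'K hs'ind
  exact all_cluster hh3 hV t ht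

end Pool.Agent.N759.LC
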