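import Mathlib
import Pool.Agent.N759.LC.Face
import Pool.Agent.N759.LC.Main1

/-! # Orbits of the second number under the denominators of the first -/

open Filter Topology Matrix NumberField

namespace Pool.Agent.N759.LC

open H715R2

/-- the matrix of a face basis -/
def fV (q q' p p' n n' : ℤ) : Matrix (Fin 3) (Fin 3) ℤ := !![q, q', 0; p, p', 0; n, n', 1]

lemma fV_det (q q' p p' n n' : ℤ) : (fV q q' p p' n n').det = q * p' - q' * p := by
  simp [fV, Matrix.det_fin_three]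

/-- limits of face bases -/
theorem limit_of_face {α β χ₁ χ₂ C : ℝ}
    (h : ∀ N : ℕ, ∃ X : ℝ, (N : ℝ) ≤ X ∧ ∃ q q' p p' n n' : ℤ, |q * p' - q' * p| = 1 ∧
      |(q : ℝ)| ≤ C * X ∧ |(q' : ℝ)| ≤ C * X ∧ |α * q - p| * X ≤ C ∧ |α * q' - p'| * X ≤ C ∧
      |β * q - n - χ₁| * N ≤ 1 ∧ |β * q' - n' - χ₂| * N ≤ 1) :
    ∃ h' ∈ YF (LLm α β), h' 2 = ![χ₁, χ₂, -1] := by
  choose X hX q q' p p' n n' hdet hq hq' hp hp' hn hn' using fun N : ℕ => h (N + 1)
  have hX1 : ∀ N, (1 : ℝ) ≤ X N := fun N => by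
    have h1 := hX N
    push_cast at h1
    have : (0 : ℝ) ≤ N := Nat.cast_nonneg N
    linarith
  have hX0 : ∀ N, 0 < X N := fun N => by linarith [hX1 N]
  set V : ℕ → Matrix (Fin 3) (Fin 3) ℤ := fun N => fV (q N) (q' N) (p N) (p' N) (n N) (n' N) with hV
  set x : ℕ → Matrix (Fin 3) (Fin 3) ℝ := fun N => sc α β (X N) 1 (V N) with hx
  have hxO : ∀ N, x N ∈ OrbF (LLm α β) N := by
    intro N
    refine ⟨av (X N) 1, V N, av_pos (hX0 N) one_pos, av_prod (hX0 N) one_pos, ?_, le_refl _, ?_,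
      sc_eq α β (X N) 1 (V N)⟩
    · have h1 := hX N
      push_cast at h1
      show (N : ℝ) ≤ X N
      linarith
    · refine isUnit_of_abs ?_
      rw [hV]
      simp only
      rw [fV_det]
      exact hdet N
  have hC0 : 0 ≤ C := by
    have h1 := hp 0
    have h2 : 0 ≤ |α * q 0 - p 0| * X 0 := mul_nonneg (abs_nonneg _) (hX0 0).le
    linarith
  have hlast : ∀ N, |β * q N - n N - χ₁| ≤ 1 := by
    intro N
    have h1 := hn N
    push_cast at h1
    have h2 : (0 : ℝ) ≤ N := Nat.cast_nonneg N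
    nlinarith [abs_nonneg (β * q N - n N - χ₁)]
  have hlast' : ∀ N, |β * q' N - n' N - χ₂| ≤ 1 := by
    intro N
    have h1 := hn' N
    push_cast at h1
    have h2 : (0 : ℝ) ≤ N := Nat.cast_nonneg N
    nlinarith [abs_nonneg (β * q' N - n' N - χ₂)]
  have hxC : ∀ N k j, |x N k j| ≤ C + |χ₁| + |χ₂| + 1 := by
    intro N k j
    have e1 := abs_nonneg χ₁
    have e2 := abs_nonneg χ₂
    have hdiv : ∀ z : ℝ, |z| ≤ C * X N → |z / (X N * 1)| ≤ C + |χ₁| + |χ₂| + 1 := by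
      intro z hz
      rw [mul_one, abs_div, abs_of_pos (hX0 N)]
      have : |z| / X N ≤ C := by rw [div_le_iff₀ (hX0 N)]; exact hz
      linarith
    have hmul : ∀ z : ℝ, |z| * X N ≤ C → |X N * z| ≤ C + |χ₁| + |χ₂| + 1 := by
      intro z hz
      rw [abs_mul, abs_of_pos (hX0 N), mul_comm]
      linarith
    fin_cases k <;> fin_cases j
    · exact hdiv _ (hq N)
    · exact hdiv _ (hq' N)
    · show |((0 : ℤ) : ℝ) / (X N * 1)| ≤ _
      rw [Int.cast_zero, zero_div, abs_zero]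
      linarith
    · exact hmul _ (hp N)
    · exact hmul _ (hp' N)
    · show |X N * (α * ((0 : ℤ) : ℝ) - ((0 : ℤ) : ℝ))| ≤ _
      rw [Int.cast_zero, mul_zero, sub_zero, mul_zero, abs_zero]
      linarith
    · show |1 * (β * (q N : ℝ) - (n N : ℝ))| ≤ _
      rw [one_mul]
      have h1 := hlast N
      have h2 := abs_add_le (β * q N - n N - χ₁) χ₁
      rw [sub_add_cancel] at h2
      linarith
    · show |1 * (β * (q' N : ℝ) - (n' N : ℝ))| ≤ _
      rw [one_mul]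
      have h1 := hlast' N
      have h2 := abs_add_le (β * q' N - n' N - χ₂) χ₂
      rw [sub_add_cancel] at h2
      linarith
    · show |1 * (β * ((0 : ℤ) : ℝ) - ((1 : ℤ) : ℝ))| ≤ _
      rw [Int.cast_zero, mul_zero, zero_sub, Int.cast_one, one_mul, abs_neg, abs_one]
      linarith
  obtain ⟨h', φ, hφ, hlim⟩ := exists_subseq x _ hxC
  refine ⟨h', limit_mem_YF (fun N => subset_closure (hxO N)) hφ hlim, ?_⟩
  have hconv : ∀ (f : ℕ → ℝ) (c : ℝ), (∀ N, |f N - c| * ((N + 1 : ℕ) : ℝ) ≤ 1) →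
      Tendsto (fun N => f (φ N)) atTop (𝓝 c) := by
    intro f c hf
    rw [tendsto_iff_norm_sub_tendsto_zero]
    refine squeeze_zero (g := fun n => 1 / ((φ n : ℝ) + 1)) (fun n => norm_nonneg _) ?_ ?_
    · intro n
      have h2 := hf (φ n)
      rw [Real.norm_eq_abs, le_div_iff₀ (by positivity)]
      push_cast at h2
      exact h2
    · exact (tendsto_one_div_add_atTop_nhds_zero_nat (𝕜 := ℝ)).comp hφ.tendsto_atTop
  funext j
  have h1 : Tendsto (fun n => x (φ n) 2 j) atTop (𝓝 (h' 2 j)) :=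
    ((continuous_apply_apply 2 j).tendsto h').comp hlim
  refine tendsto_nhds_unique h1 ?_
  fin_cases j
  · have h2 := hconv (fun N => 1 * (β * q N - n N)) χ₁ (fun N => by rw [one_mul]; exact hn N)
    exact h2
  · have h2 := hconv (fun N => 1 * (β * q' N - n' N)) χ₂ (fun N => by rw [one_mul]; exact hn' N)
    exact h2
  · have h2 : ∀ N, x N 2 2 = -1 := by
      intro N
      show 1 * (β * ((0 : ℤ) : ℝ) - ((1 : ℤ) : ℝ)) = -1
      rw [Int.cast_zero, mul_zero, zero_sub, Int.cast_one, one_mul]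
    show Tendsto (fun n => x (φ n) 2 2) atTop (𝓝 (-1 : ℝ))
    simp only [h2]
    exact tendsto_const_nhds

/-- independent case: all values -/
theorem face_all {α β χ₁ χ₂ C : ℝ} (K : IntermediateField ℚ ℝ) [FiniteDimensional ℚ K]
    (hK : Module.finrank ℚ K ≤ 3) (h1 : χ₁ ∈ K) (h2 : χ₂ ∈ K)
    (h : ∀ N : ℕ, ∃ X : ℝ, (N : ℝ) ≤ X ∧ ∃ q q' p p' n n' : ℤ, |q * p' - q' * p| = 1 ∧
      |(q : ℝ)| ≤ C * X ∧ |(q' : ℝ)| ≤ C * X ∧ |α * q - p| * X ≤ C ∧ |α * q' - p'| * X ≤ C ∧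
      |β * q - n - χ₁| * N ≤ 1 ∧ |β * q' - n' - χ₂| * N ≤ 1)
    (hind : ∀ a b c : ℤ, (a : ℝ) + b * χ₁ + c * χ₂ = 0 → a = 0 ∧ b = 0 ∧ c = 0)
    (t : ℝ) (ht : 0 ≤ t) : MapClusterPt t atTop (fL α β) := by
  obtain ⟨y, hy, hy2⟩ := limit_of_face h
  have hmem : ∀ j, y 2 j ∈ K := by
    intro j
    rw [hy2]
    fin_cases j
    · exact h1
    · exact h2
    · exact K.neg_mem K.one_mem
  have hind' : ∀ m : Fin 3 → ℤ, ∑ j, y 2 j * (m j : ℝ) = 0 → m = 0 := by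
    intro m hm
    rw [hy2, Fin.sum_univ_three] at hm
    have h3 : (((-m 2 : ℤ) : ℝ)) + (m 0) * χ₁ + (m 1) * χ₂ = 0 := by
      push_cast
      have h4 : χ₁ * (m 0 : ℝ) + χ₂ * (m 1 : ℝ) + (-1) * (m 2 : ℝ) = 0 := hm
      linarith
    obtain ⟨e1, e2, e3⟩ := hind _ _ _ h3
    funext j
    fin_cases j
    · exact e2
    · exact e3
    · show m 2 = 0
      omega
  obtain ⟨h', hh', hr⟩ := face_push hy K hK hmem hind'
  obtain ⟨h'', hh'', hV⟩ := row_dense hh' 2 1 one_ne_zero K hK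
    (by intro j; rw [one_mul, hr]; exact hmem j) (by rw [hr]; exact hind')
  exact all_cluster hh'' hV t ht

/-- Littlewood's conjecture in all cases -/
theorem face_LC {α β χ₁ χ₂ C : ℝ} (K : IntermediateField ℚ ℝ) [FiniteDimensional ℚ K]
    (hK : Module.finrank ℚ K ≤ 3) (h1 : χ₁ ∈ K) (h2 : χ₂ ∈ K)
    (h : ∀ N : ℕ, ∃ X : ℝ, (N : ℝ) ≤ X ∧ ∃ q q' p p' n n' : ℤ, |q * p' - q' * p| = 1 ∧
      |(q : ℝ)| ≤ C * X ∧ |(q' : ℝ)| ≤ C * X ∧ |α * q - p| * X ≤ C ∧ |α * q' - p'| * X ≤ C ∧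
      |β * q - n - χ₁| * N ≤ 1 ∧ |β * q' - n' - χ₂| * N ≤ 1)
    (ε : ℝ) (hε : 0 < ε) (N : ℕ) : ∃ q : ℕ, N ≤ q ∧ 0 < q ∧ fL α β q < ε := by
  by_contra hcon
  push Not at hcon
  by_cases hind : ∀ a b c : ℤ, (a : ℝ) + b * χ₁ + c * χ₂ = 0 → a = 0 ∧ b = 0 ∧ c = 0
  · have h3 := face_all K hK h1 h2 h hind 0 le_rfl
    rw [mapClusterPt_iff_frequently] at h3
    have h4 := h3 (Set.Iio ε) (Iio_mem_nhds hε)
    rw [frequently_atTop] at h4
    obtain ⟨q, hq, hq2⟩ := h4 (N + 1)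
    exact absurd hq2 (not_lt.2 (hcon q (by omega) (by omega)))
  · push Not at hind
    obtain ⟨a, b, c, habc, hne⟩ := hind
    obtain ⟨ν, hν0, hν⟩ := exists_nu hε hcon
    obtain ⟨y, hy, hy2⟩ := limit_of_face h
    refine face_dep hν0 hν hy ![b, c, -a] ?_ ?_
    · intro h0
      have e0 := congrFun h0 0
      have e1 := congrFun h0 1
      have e2 := congrFun h0 2
      simp at e0 e1 e2
      exact hne e2 e0 e1
    · rw [hy2, Fin.sum_univ_three]
      show χ₁ * (b : ℝ) + χ₂ * (c : ℝ) + (-1) * ((-a : ℤ) : ℝ) = 0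
      push_cast
      linarith

/-- sequences of approximations such as the convergents -/
theorem conv_LC {α β χ₁ χ₂ : ℝ} (K : IntermediateField ℚ ℝ) [FiniteDimensional ℚ K]
    (hK : Module.finrank ℚ K ≤ 3) (h1 : χ₁ ∈ K) (h2 : χ₂ ∈ K) (q p : ℕ → ℤ)
    (hq : ∀ k, 0 < q k) (hqt : Tendsto q atTop atTop)
    (hdet : ∀ k, |q k * p (k + 1) - q (k + 1) * p k| = 1)
    (happ : ∀ k, |α * q k - p k| * q (k + 1) ≤ 1)
    (hmono : ∀ k, q k ≤ q (k + 1))
    (hχ : MapClusterPt (((χ₁ : ℝ) : AddCircle (1 : ℝ)), ((χ₂ : ℝ) : AddCircle (1 : ℝ))) atTop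
      (fun k => (((β * q k : ℝ) : AddCircle (1 : ℝ)), ((β * q (k + 1) : ℝ) : AddCircle (1 : ℝ)))))
    (ε : ℝ) (hε : 0 < ε) (N : ℕ) : ∃ r : ℕ, N ≤ r ∧ 0 < r ∧ fL α β r < ε := by
  by_contra hcon
  have hcon' := hcon
  push Not at hcon
  obtain ⟨ν, hν0, hν⟩ := exists_nu hε hcon
  -- the quotients are bounded
  have hratio : ∀ k, (q (k + 1) : ℝ) * ν ≤ q k := by
    intro k
    have h3 := hν (q k) (p k) (round (β * q k)) (hq k).ne'
    have h4 : |β * (q k : ℝ) - (round (β * q k) : ℝ)| ≤ 1 := by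
      have := abs_sub_round (β * q k)
      linarith
    have hqk : (0 : ℝ) < q k := by exact_mod_cast hq k
    have hqk1 : (0 : ℝ) < q (k + 1) := by exact_mod_cast hq (k + 1)
    rw [abs_mul, abs_mul, abs_of_pos hqk] at h3
    have h5 : (q k : ℝ) * |α * q k - p k| * |β * (q k : ℝ) - (round (β * q k) : ℝ)| ≤
        (q k : ℝ) * |α * q k - p k| :=
      mul_le_of_le_one_right (mul_nonneg hqk.le (abs_nonneg _)) h4
    have h6 := happ k
    have h7 : ν * q (k + 1) ≤ (q k : ℝ) * |α * q k - p k| * q (k + 1) :=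
      mul_le_mul_of_nonneg_right (h3.trans h5) hqk1.le
    nlinarith
  apply hcon'
  refine face_LC (C := max 1 ν⁻¹) K hK h1 h2 ?_ ε hε N
  intro M
  -- closeness in the torus
  have hnear : ∀ δ : ℝ, 0 < δ → ∃ᶠ k in atTop, (∃ n : ℤ, |β * q k - n - χ₁| < δ) ∧
      ∃ n' : ℤ, |β * q (k + 1) - n' - χ₂| < δ := by
    intro δ hδ
    rw [mapClusterPt_iff_frequently] at hχ
    have h3 := hχ (Metric.ball (((χ₁ : ℝ) : AddCircle (1 : ℝ)), ((χ₂ : ℝ) : AddCircle (1 : ℝ))) δ)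
      (Metric.ball_mem_nhds _ hδ)
    refine h3.mono fun k hk => ?_
    rw [Metric.mem_ball, Prod.dist_eq, max_lt_iff] at hk
    have key : ∀ x y : ℝ, dist ((x : ℝ) : AddCircle (1 : ℝ)) ((y : ℝ) : AddCircle (1 : ℝ)) < δ →
        ∃ n : ℤ, |x - n - y| < δ := by
      intro x y hxy
      rw [dist_eq_norm, ← AddCircle.coe_sub, AddCircle.norm_eq] at hxy
      refine ⟨round (x - y), ?_⟩
      rw [inv_one, one_mul, mul_one] at hxy
      rwa [show x - (round (x - y) : ℝ) - y = x - y - (round (x - y) : ℝ) by ring]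
    exact ⟨key _ _ hk.1, key _ _ hk.2⟩
  obtain ⟨k, ⟨⟨n, hn⟩, ⟨n', hn'⟩⟩, hk⟩ := ((hnear (1 / (M + 1)) (by positivity)).and_eventually
    (hqt.eventually_ge_atTop (M : ℤ))).exists
  have hqk : (0 : ℝ) < q k := by exact_mod_cast hq k
  have hqk1 : (0 : ℝ) < q (k + 1) := by exact_mod_cast hq (k + 1)
  have hm : (q k : ℝ) ≤ q (k + 1) := by exact_mod_cast hmono k
  have hm2 : (q (k + 1) : ℝ) ≤ q (k + 2) := by exact_mod_cast hmono (k + 1)
  have hsmall : ∀ z : ℝ, |z| < 1 / (M + 1) → |z| * M ≤ 1 := by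
    intro z hz
    rw [lt_div_iff₀ (by positivity)] at hz
    nlinarith [abs_nonneg z]
  refine ⟨q k, by exact_mod_cast hk, q k, q (k + 1), p k, p (k + 1), n, n', hdet k, ?_, ?_, ?_, ?_,
    hsmall _ hn, hsmall _ hn'⟩
  · rw [abs_of_pos hqk]
    exact le_mul_of_one_le_left hqk.le (le_max_left _ _)
  · rw [abs_of_pos hqk1]
    have h3 := hratio k
    have h4 : (q (k + 1) : ℝ) ≤ ν⁻¹ * q k := by
      rw [← div_eq_inv_mul, le_div_iff₀ hν0]
      exact h3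
    refine h4.trans (mul_le_mul_of_nonneg_right (le_max_right _ _) hqk.le)
  · have h3 : |α * q k - p k| * q k ≤ |α * q k - p k| * q (k + 1) :=
      mul_le_mul_of_nonneg_left hm (abs_nonneg _)
    exact (h3.trans (happ k)).trans (le_max_left _ _)
  · have h3 : |α * q (k + 1) - p (k + 1)| * q k ≤ |α * q (k + 1) - p (k + 1)| * q (k + 2) :=
      mul_le_mul_of_nonneg_left (hm.trans hm2) (abs_nonneg _)
    exact (h3.trans (happ (k + 1))).trans (le_max_left _ _)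

end Pool.Agent.N759.LC
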