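import Mathlib
import Pool.Agent.N759.LC.Push

/-! # Eigenvectors of a unimodular `3 × 3` matrix without rational eigenvalue -/

open Filter Topology Matrix NumberField Polynomial

namespace Pool.Agent.N759.LC

open H715R2

/-- a monic real polynomial of odd degree three has a root -/
lemma cubic_root (f : ℝ[X]) (hf : f.Monic) (hd : f.natDegree = 3) : ∃ x : ℝ, f.IsRoot x := by
  have hdeg : 0 < f.degree := by
    rw [Polynomial.degree_eq_natDegree hf.ne_zero, hd]; norm_num
  have h1 : Tendsto (fun x => f.eval x) atTop atTop :=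
    f.tendsto_atTop_of_leadingCoeff_nonneg hdeg (by rw [hf.leadingCoeff]; norm_num)
  set g : ℝ[X] := f.comp (-X) with hg
  have hgd : g.natDegree = 3 := by
    rw [hg, natDegree_comp, natDegree_neg, natDegree_X, mul_one, hd]
  have hgl : g.leadingCoeff = -1 := by
    rw [hg, leadingCoeff_comp (by rw [natDegree_neg, natDegree_X]; norm_num), hf.leadingCoeff, hd,
      leadingCoeff_neg, leadingCoeff_X]
    norm_num
  have hg0 : g ≠ 0 := by
    intro h
    rw [h, natDegree_zero] at hgd
    omega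
  have h2 : Tendsto (fun x => g.eval x) atTop atBot :=
    g.tendsto_atBot_of_leadingCoeff_nonpos
      (by rw [Polynomial.degree_eq_natDegree hg0, hgd]; norm_num) (by rw [hgl]; norm_num)
  obtain ⟨a, ha⟩ := (h1.eventually (eventually_ge_atTop 0)).exists
  obtain ⟨b, hb⟩ := (h2.eventually (eventually_le_atBot 0)).exists
  have hb' : f.eval (-b) ≤ 0 := by
    have : g.eval b = f.eval (-b) := by rw [hg, eval_comp]; simp
    rw [← this]; exact hb
  obtain ⟨x, hx⟩ := mem_range_of_exists_le_of_exists_ge f.continuous ⟨-b, hb'⟩ ⟨a, ha⟩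
  exact ⟨x, hx⟩

/-- the characteristic polynomial of a unimodular matrix without eigenvalue `±1` is irreducible -/
lemma irr_charpoly (W : Matrix (Fin 3) (Fin 3) ℤ) (hW : |W.det| = 1)
    (hU : ∀ m : Fin 3 → ℤ, m ≠ 0 → W *ᵥ m ≠ m ∧ W *ᵥ m ≠ -m) :
    Irreducible (W.charpoly.map (Int.castRingHom ℚ)) := by
  have hmon : W.charpoly.Monic := charpoly_monic W
  have hnd : W.charpoly.natDegree = 3 := by rw [charpoly_natDegree_eq_dim, Fintype.card_fin]
  refine irreducible_of_degree_le_three_of_not_isRoot ?_ ?_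
  · rw [hmon.natDegree_map, hnd]
    simp
  · intro x hx
    have hx' : aeval x W.charpoly = 0 := by
      rw [IsRoot.def, eval_map] at hx
      exact hx
    obtain ⟨n, hn⟩ := isInteger_of_is_root_of_monic hmon hx'
    have hroot : W.charpoly.eval n = 0 := by
      have h1 : x = (n : ℚ) := by rw [← hn]; rfl
      rw [h1] at hx'
      have h2 : aeval ((n : ℚ)) W.charpoly = ((W.charpoly.eval n : ℤ) : ℚ) := by
        have := aeval_algebraMap_apply ℚ (n : ℤ) W.charpoly
        simpa using this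
      rw [h2] at hx'
      exact_mod_cast hx'
    have hdvd : n ∣ W.charpoly.coeff 0 := by
      have h1 := sub_dvd_eval_sub n 0 W.charpoly
      rw [hroot, sub_zero, zero_sub, ← coeff_zero_eq_eval_zero] at h1
      exact (dvd_neg).1 h1
    have hc : IsUnit (W.charpoly.coeff 0) := by
      have h1 := det_eq_sign_charpoly_coeff W
      rw [Fintype.card_fin] at h1
      have h2 : |W.charpoly.coeff 0| = 1 := by
        rw [h1, abs_mul] at hW
        norm_num at hW
        exact hW
      exact Int.isUnit_iff_abs_eq.2 h2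
    have hn1 : n = 1 ∨ n = -1 := Int.isUnit_iff.1 (isUnit_of_dvd_unit hdvd hc)
    have hdet : (scalar (Fin 3) n - W).det = 0 := by
      rw [← eval_charpoly]; exact hroot
    obtain ⟨v, hv, hv0⟩ := exists_mulVec_eq_zero_iff.2 hdet
    have h3 : W *ᵥ v = n • v := by
      rw [sub_mulVec, sub_eq_zero] at hv0
      rw [← hv0]
      funext i
      simp
    rcases hn1 with h | h
    · apply (hU v hv).1
      rw [h3, h, one_smul]
    · apply (hU v hv).2
      rw [h3, h, neg_one_smul]

/-- distinct roots of a monic cubic -/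
lemma cubic_const {x y z a b c : ℂ} (hx : x ^ 3 + a * x ^ 2 + b * x + c = 0)
    (hy : y ^ 3 + a * y ^ 2 + b * y + c = 0) (hz : z ^ 3 + a * z ^ 2 + b * z + c = 0)
    (hxy : x ≠ y) (hxz : x ≠ z) (hyz : y ≠ z) : c = -(x * y * z) := by
  have h1 : x ^ 2 + x * y + y ^ 2 + a * (x + y) + b = 0 := by
    have h : (x - y) * (x ^ 2 + x * y + y ^ 2 + a * (x + y) + b) = 0 := by
      linear_combination hx - hy
    exact (mul_eq_zero.1 h).resolve_left (sub_ne_zero.2 hxy)
  have h2 : x ^ 2 + x * z + z ^ 2 + a * (x + z) + b = 0 := by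
    have h : (x - z) * (x ^ 2 + x * z + z ^ 2 + a * (x + z) + b) = 0 := by
      linear_combination hx - hz
    exact (mul_eq_zero.1 h).resolve_left (sub_ne_zero.2 hxz)
  have h3 : x + y + z + a = 0 := by
    have h : (y - z) * (x + y + z + a) = 0 := by
      linear_combination h1 - h2
    exact (mul_eq_zero.1 h).resolve_left (sub_ne_zero.2 hyz)
  linear_combination hx - x * h1 + x * y * h3

lemma quad_coeff (q0 q1 q2 : ℚ) : (C q0 + C q1 * X + C q2 * X ^ 2 : ℚ[X]).coeff 0 = q0 ∧
    (C q0 + C q1 * X + C q2 * X ^ 2 : ℚ[X]).coeff 1 = q1 ∧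
    (C q0 + C q1 * X + C q2 * X ^ 2 : ℚ[X]).coeff 2 = q2 := by
  refine ⟨by simp, by simp [coeff_C], by simp [coeff_X]⟩

/-- **Eigenvector data.** -/
theorem exists_eigen (W : Matrix (Fin 3) (Fin 3) ℤ) (hW : |W.det| = 1)
    (hU : ∀ m : Fin 3 → ℤ, m ≠ 0 → W *ᵥ m ≠ m ∧ W *ᵥ m ≠ -m) :
    ∃ (K : IntermediateField ℚ ℝ) (_ : FiniteDimensional ℚ K) (l : Fin 3 → K) (lam : K),
      Module.finrank ℚ K ≤ 3 ∧ (∀ k, ∑ j, l j * ((W j k : ℤ) : K) = lam * l k) ∧
      (∀ m : Fin 3 → ℤ, ∑ j, ((l j : K) : ℝ) * (m j : ℝ) = 0 → m = 0) ∧ lam ≠ 0 ∧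
      ∀ τ : K →+* ℂ, (∃ z : K, τ z ≠ ((z : ℝ) : ℂ)) → ‖τ lam‖ ≠ |(lam : ℝ)| := by
  classical
  set f : ℤ[X] := W.charpoly with hf
  have hmon : f.Monic := charpoly_monic W
  have hnd : f.natDegree = 3 := by rw [hf, charpoly_natDegree_eq_dim, Fintype.card_fin]
  have hirr := irr_charpoly W hW hU
  rw [← hf] at hirr
  obtain ⟨lamR, hlamR⟩ := cubic_root (f.map (Int.castRingHom ℝ)) (hmon.map _)
    (by rw [hmon.natDegree_map, hnd])
  have hrootR : aeval lamR (f.map (Int.castRingHom ℚ)) = 0 := by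
    rw [IsRoot.def, eval_map] at hlamR
    rw [aeval_def, eval₂_map]
    have : (algebraMap ℚ ℝ).comp (Int.castRingHom ℚ) = Int.castRingHom ℝ := Subsingleton.elim _ _
    rw [this]
    exact hlamR
  have hint : IsIntegral ℚ lamR := ⟨f.map (Int.castRingHom ℚ), hmon.map _, hrootR⟩
  have hmin : f.map (Int.castRingHom ℚ) = minpoly ℚ lamR :=
    minpoly.eq_of_irreducible_of_monic hirr hrootR (hmon.map _)
  set K : IntermediateField ℚ ℝ := IntermediateField.adjoin ℚ {lamR} with hK
  have hfd : FiniteDimensional ℚ K := IntermediateField.adjoin.finiteDimensional hint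
  have hfr : Module.finrank ℚ K = 3 := by
    rw [hK, IntermediateField.adjoin.finrank hint, ← hmin, hmon.natDegree_map, hnd]
  have hlamK : lamR ∈ K := IntermediateField.mem_adjoin_simple_self ℚ lamR
  set lam : K := ⟨lamR, hlamK⟩ with hlam
  -- coefficients
  set a : ℤ := f.coeff 2 with ha
  set b : ℤ := f.coeff 1 with hb
  set c : ℤ := f.coeff 0 with hc
  have hcoeff3 : f.coeff 3 = 1 := by
    have := hmon.coeff_natDegree
    rwa [hnd] at this
  have hexp : ∀ {R : Type} [CommRing R] (x : R), eval₂ (Int.castRingHom R) x f =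
      x ^ 3 + (a : R) * x ^ 2 + (b : R) * x + (c : R) := by
    intro R _ x
    rw [eval₂_eq_sum_range, hnd, Finset.sum_range_succ, Finset.sum_range_succ,
      Finset.sum_range_succ, Finset.sum_range_one, hcoeff3]
    simp only [eq_intCast, Int.cast_one, pow_zero, mul_one, pow_one, one_mul, ← ha, ← hb, ← hc]
    ring
  have hcabs : |c| = 1 := by
    have h1 := det_eq_sign_charpoly_coeff W
    rw [Fintype.card_fin] at h1
    rw [h1, abs_mul] at hW
    norm_num at hW
    exact hW
  have hrR : lamR ^ 3 + (a : ℝ) * lamR ^ 2 + (b : ℝ) * lamR + (c : ℝ) = 0 := by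
    rw [← hexp lamR]
    rw [IsRoot.def, eval_map] at hlamR
    exact hlamR
  have hrK : lam ^ 3 + (a : K) * lam ^ 2 + (b : K) * lam + (c : K) = 0 := by
    apply Subtype.ext
    push_cast
    exact hrR
  -- no rational root
  have hnoroot : ∀ x : ℚ, x ^ 3 + (a : ℚ) * x ^ 2 + (b : ℚ) * x + (c : ℚ) ≠ 0 := by
    intro x hx
    have h1 : (f.map (Int.castRingHom ℚ)).IsRoot x := by
      rw [IsRoot.def, eval_map, hexp]; exact hx
    have h2 := degree_eq_one_of_irreducible_of_root hirr h1
    rw [Polynomial.degree_eq_natDegree hirr.ne_zero, hmon.natDegree_map, hnd] at h2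
    norm_num at h2
  have hlam0 : lam ≠ 0 := by
    intro h0
    rw [h0] at hrK
    have h1 : ((c : K) : ℝ) = 0 := by
      have : (c : K) = 0 := by linear_combination hrK
      rw [this]; rfl
    have h2 : (c : ℝ) = 0 := by simpa using h1
    have h3 : c = 0 := by exact_mod_cast h2
    rw [h3] at hcabs
    norm_num at hcabs
  -- the eigenvector
  set WK : Matrix (Fin 3) (Fin 3) K := W.map (Int.castRingHom K) with hWK
  have hdetK : (scalar (Fin 3) lam - WK).det = 0 := by
    rw [← eval_charpoly, hWK, charpoly_map, eval_map, hexp]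
    exact hrK
  obtain ⟨l, hl0, hl⟩ := exists_vecMul_eq_zero_iff.2 hdetK
  have hlW : ∀ k, ∑ j, l j * ((W j k : ℤ) : K) = lam * l k := by
    intro k
    have h1 := congrFun hl k
    rw [vecMul_sub, Pi.sub_apply, Pi.zero_apply, sub_eq_zero] at h1
    have h2 : (l ᵥ* (scalar (Fin 3)) lam) k = lam * l k := by
      rw [scalar_apply, vecMul_diagonal, mul_comm]
    rw [h2] at h1
    rw [h1]
    rfl
  -- independence
  have hind : ∀ m : Fin 3 → ℤ, ∑ j, ((l j : K) : ℝ) * (m j : ℝ) = 0 → m = 0 := by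
    intro m hm
    by_contra hm0
    -- orthogonality is preserved
    have hstep : ∀ v : Fin 3 → ℤ, ∑ j, ((l j : K) : ℝ) * (v j : ℝ) = 0 →
        ∑ j, ((l j : K) : ℝ) * ((W *ᵥ v) j : ℝ) = 0 := by
      intro v hv
      have h1 : ∑ j, ((l j : K) : ℝ) * (((W *ᵥ v) j : ℤ) : ℝ) =
          ∑ k, (∑ j, ((l j : K) : ℝ) * ((W j k : ℤ) : ℝ)) * (v k : ℝ) := by
        simp only [mulVec, dotProduct]
        push_cast
        simp only [Finset.mul_sum, Finset.sum_mul]
        rw [Finset.sum_comm]
        refine Finset.sum_congr rfl fun k _ => Finset.sum_congr rfl fun j _ => ?_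
        ring
      have h2 : ∀ k, ∑ j, ((l j : K) : ℝ) * ((W j k : ℤ) : ℝ) = lamR * ((l k : K) : ℝ) := by
        intro k
        have h3 : ((∑ j, l j * ((W j k : ℤ) : K) : K) : ℝ) = ((lam * l k : K) : ℝ) := by rw [hlW k]
        push_cast at h3
        exact h3
      rw [h1]
      simp only [h2]
      have h3 : ∑ k, lamR * ((l k : K) : ℝ) * (v k : ℝ) = lamR * ∑ k, ((l k : K) : ℝ) * (v k : ℝ) := by
        rw [Finset.mul_sum]
        exact Finset.sum_congr rfl fun k _ => by ring
      rw [h3, hv, mul_zero]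
    set v : Fin 3 → (Fin 3 → ℤ) := ![m, W *ᵥ m, W *ᵥ (W *ᵥ m)] with hv
    have hv0 : ∀ i, ∑ j, ((l j : K) : ℝ) * (v i j : ℝ) = 0 := by
      intro i
      fin_cases i
      · exact hm
      · exact hstep _ hm
      · exact hstep _ (hstep _ hm)
    -- the matrix with these columns is singular
    set M : Matrix (Fin 3) (Fin 3) ℤ := Matrix.of fun j i => v i j with hM
    have hMdet : M.det = 0 := by
      have h1 : (M.map (Int.castRingHom ℝ)).det = 0 := by
        rw [← exists_vecMul_eq_zero_iff]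
        refine ⟨fun j => ((l j : K) : ℝ), ?_, ?_⟩
        · intro h
          apply hl0
          funext j
          exact Subtype.ext (congrFun h j)
        · funext i
          exact hv0 i
      have h2 := (Int.castRingHom ℝ).map_det M
      rw [RingHom.mapMatrix_apply, h1] at h2
      have h3 : ((M.det : ℤ) : ℝ) = 0 := h2
      exact_mod_cast h3
    obtain ⟨e, he0, he⟩ := exists_mulVec_eq_zero_iff.2 hMdet
    have he' : e 0 • m + e 1 • (W *ᵥ m) + e 2 • (W *ᵥ (W *ᵥ m)) = 0 := by
      funext j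
      have h1 := congrFun he j
      simp only [mulVec, dotProduct, Fin.sum_univ_three, hM, Matrix.of_apply, hv,
        Matrix.cons_val_zero, Matrix.cons_val_one, Matrix.cons_val] at h1
      simp only [Pi.add_apply, Pi.smul_apply, smul_eq_mul, Pi.zero_apply, mulVec, dotProduct,
        Fin.sum_univ_three]
      rw [Pi.zero_apply] at h1
      linear_combination h1
    -- coprimality
    set p : ℚ[X] := C ((e 0 : ℤ) : ℚ) + C ((e 1 : ℤ) : ℚ) * X + C ((e 2 : ℤ) : ℚ) * X ^ 2 with hp
    have hpdeg : p.natDegree ≤ 2 := by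
      rw [hp]
      compute_degree
    have hp0 : p ≠ 0 := by
      intro h
      apply he0
      obtain ⟨c0, c1, c2⟩ : p.coeff 0 = (e 0 : ℚ) ∧ p.coeff 1 = (e 1 : ℚ) ∧ p.coeff 2 = (e 2 : ℚ) := by
        rw [hp]
        exact quad_coeff _ _ _
      rw [h, coeff_zero] at c0 c1 c2
      funext i
      fin_cases i
      · have : ((e 0 : ℤ) : ℚ) = 0 := c0.symm
        exact_mod_cast this
      · have : ((e 1 : ℤ) : ℚ) = 0 := c1.symm
        exact_mod_cast this
      · have : ((e 2 : ℤ) : ℚ) = 0 := c2.symm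
        exact_mod_cast this
    have hcop : IsCoprime (f.map (Int.castRingHom ℚ)) p := by
      rw [hirr.coprime_iff_not_dvd]
      intro hdvd
      have := natDegree_le_of_dvd hdvd hp0
      rw [hmon.natDegree_map, hnd] at this
      omega
    obtain ⟨u, w, huw⟩ := hcop
    set WQ : Matrix (Fin 3) (Fin 3) ℚ := W.map (Int.castRingHom ℚ) with hWQ
    have hCH : aeval WQ (f.map (Int.castRingHom ℚ)) = 0 := by
      have h1 := aeval_self_charpoly WQ
      rw [hWQ, charpoly_map] at h1
      exact h1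
    set mQ : Fin 3 → ℚ := fun j => (m j : ℚ) with hmQ
    have hcast : ∀ v : Fin 3 → ℤ, WQ *ᵥ (fun j => (v j : ℚ)) = fun j => (((W *ᵥ v) j : ℤ) : ℚ) := by
      intro v
      funext j
      simp [hWQ, mulVec, dotProduct]
    have hpm : aeval WQ p *ᵥ mQ = 0 := by
      have h1 : aeval WQ p = ((e 0 : ℤ) : ℚ) • 1 + ((e 1 : ℤ) : ℚ) • WQ + ((e 2 : ℤ) : ℚ) • (WQ * WQ) := by
        rw [hp]
        simp only [map_add, map_mul, aeval_C, aeval_X, map_pow]
        rw [Algebra.algebraMap_eq_smul_one, Algebra.algebraMap_eq_smul_one,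
          Algebra.algebraMap_eq_smul_one, smul_mul_assoc, one_mul, smul_mul_assoc, one_mul, sq]
      rw [h1, add_mulVec, add_mulVec, smul_mulVec, smul_mulVec, smul_mulVec, one_mulVec,
        ← mulVec_mulVec, hmQ, hcast, hcast]
      funext j
      have h2 := congrFun he' j
      simp only [Pi.add_apply, Pi.smul_apply, smul_eq_mul, Pi.zero_apply] at h2 ⊢
      exact_mod_cast h2
    have hm1 : mQ = 0 := by
      have h1 := congrArg (fun q : ℚ[X] => aeval WQ q *ᵥ mQ) huw
      simp only [map_add, map_mul, map_one, one_mulVec] at h1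
      rw [hCH, mul_zero, zero_add, ← mulVec_mulVec, hpm, mulVec_zero] at h1
      exact h1.symm
    apply hm0
    funext j
    have h1 : (m j : ℚ) = 0 := congrFun hm1 j
    show m j = 0
    exact_mod_cast h1
  refine ⟨K, hfd, l, lam, hfr.le, hlW, hind, hlam0, ?_⟩
  -- distinct moduli
  intro τ hτ habs
  set x : ℂ := ((lamR : ℝ) : ℂ) with hx
  set z : ℂ := τ lam with hz
  have hlamval : ((lam : K) : ℝ) = lamR := rfl
  have hxr : x ^ 3 + (a : ℂ) * x ^ 2 + (b : ℂ) * x + (c : ℂ) = 0 := by
    rw [hx]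
    exact_mod_cast congrArg (fun t : ℝ => (t : ℂ)) hrR
  have hzr : z ^ 3 + (a : ℂ) * z ^ 2 + (b : ℂ) * z + (c : ℂ) = 0 := by
    have h1 := congrArg τ hrK
    simpa using h1
  -- `τ lam ≠ lam`
  have hzx : z ≠ x := by
    intro h
    let pb := IntermediateField.adjoin.powerBasis hint
    let φ : K →+* ℂ := (Complex.ofRealHom : ℝ →+* ℂ).comp (algebraMap K ℝ)
    have h1 : τ.toRatAlgHom = φ.toRatAlgHom := by
      refine pb.algHom_ext ?_
      show τ (IntermediateField.AdjoinSimple.gen ℚ lamR) = φ (IntermediateField.AdjoinSimple.gen ℚ lamR)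
      exact h
    obtain ⟨y, hy⟩ := hτ
    apply hy
    have h2 := congrArg (fun g : K →ₐ[ℚ] ℂ => g y) h1
    exact h2
  have hnorm : ‖z‖ = |lamR| := habs
  have hcC : ‖(c : ℂ)‖ = 1 := by
    have h1 : ‖(c : ℂ)‖ = |(c : ℝ)| := by
      rw [← Complex.ofReal_intCast, Complex.norm_real, Real.norm_eq_abs]
    rw [h1, ← Int.cast_abs, hcabs, Int.cast_one]
  by_cases hreal : (starRingEnd ℂ) z = z
  · -- real conjugate
    obtain ⟨y, hy⟩ := Complex.conj_eq_iff_real.1 hreal
    have hyabs : |y| = |lamR| := by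
      rw [← hnorm, hy, Complex.norm_real, Real.norm_eq_abs]
    rcases abs_eq_abs.1 hyabs with h | h
    · exact hzx (by rw [hy, h])
    · -- `-lam` is a root
      have hyr : y ^ 3 + (a : ℝ) * y ^ 2 + (b : ℝ) * y + (c : ℝ) = 0 := by
        rw [hy] at hzr
        exact_mod_cast hzr
      rw [h] at hyr
      have h1 : (a : ℝ) * lamR ^ 2 + c = 0 := by linear_combination (hrR + hyr) / 2
      have h2 : lamR * (lamR ^ 2 + b) = 0 := by linear_combination (hrR - hyr) / 2
      have hl0' : lamR ≠ 0 := by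
        intro h0
        apply hlam0
        exact Subtype.ext h0
      have h3 : lamR ^ 2 + b = 0 := (mul_eq_zero.1 h2).resolve_left hl0'
      have h4 : aeval lamR (X ^ 2 + C ((b : ℤ) : ℚ) : ℚ[X]) = 0 := by
        simp only [map_add, map_pow, aeval_X, aeval_C]
        simpa using h3
      have h5 := minpoly.dvd ℚ lamR h4
      rw [← hmin] at h5
      have h6 : (X ^ 2 + C ((b : ℤ) : ℚ) : ℚ[X]) ≠ 0 := (monic_X_pow_add_C _ (by norm_num)).ne_zero
      have h7 := natDegree_le_of_dvd h5 h6
      rw [hmon.natDegree_map, hnd, natDegree_X_pow_add_C] at h7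
      omega
  · -- complex conjugates
    set z' : ℂ := (starRingEnd ℂ) z with hz'
    have hz'r : z' ^ 3 + (a : ℂ) * z' ^ 2 + (b : ℂ) * z' + (c : ℂ) = 0 := by
      have h1 := congrArg (starRingEnd ℂ) hzr
      simpa using h1
    have hz'x : z' ≠ x := by
      intro h
      apply hzx
      have h1 := congrArg (starRingEnd ℂ) h
      rw [hz', Complex.conj_conj, hx, Complex.conj_ofReal] at h1
      exact h1
    have h1 := cubic_const hxr hzr hz'r hzx.symm hz'x.symm (fun h => hreal h.symm)
    have h2 : ‖x * z * z'‖ = |lamR| ^ 3 := by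
      rw [norm_mul, norm_mul, hz', RCLike.norm_conj, hnorm, hx, Complex.norm_real, Real.norm_eq_abs]
      ring
    have h3 : |lamR| ^ 3 = 1 := by
      rw [← h2, ← hcC, h1, norm_neg]
    have h4 : |lamR| = 1 := by
      have h5 : (0 : ℝ) ≤ |lamR| := abs_nonneg _
      exact (pow_eq_one_iff_of_nonneg h5 (by norm_num)).1 h3
    rcases (abs_eq (by norm_num : (0 : ℝ) ≤ 1)).1 h4 with h | h
    · apply hnoroot 1
      rw [h] at hrR
      exact_mod_cast hrR
    · apply hnoroot (-1)
      rw [h] at hrR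
      exact_mod_cast hrR

end Pool.Agent.N759.LC
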