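import Mathlib
import Pool.Agent.N759.LC.UnitMats

/-! # Rows of a matrix whose products with the powers of a matrix stay bounded -/

open Filter Topology Matrix NumberField

namespace Pool.Agent.N759.LC

open H715R2

/-- size of a row -/
noncomputable def rs (h : Matrix (Fin 3) (Fin 3) ℝ) (r : Fin 3) : ℝ := ∑ k, |h r k|

lemma rs_nonneg (h : Matrix (Fin 3) (Fin 3) ℝ) (r : Fin 3) : 0 ≤ rs h r :=
  Finset.sum_nonneg fun _ _ => abs_nonneg _

/-- integer matrix as a complex matrix -/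
noncomputable def mC (M : Matrix (Fin 3) (Fin 3) ℤ) : Matrix (Fin 3) (Fin 3) ℂ :=
  M.map (Int.cast : ℤ → ℂ)

lemma mC_mul (A B : Matrix (Fin 3) (Fin 3) ℤ) : mC (A * B) = mC A * mC B := by
  have := (Int.castRingHom ℂ).mapMatrix.map_mul A B
  simpa [mC] using this

lemma mC_one : mC 1 = 1 := by simp [mC]

lemma vec_zpow (U : (Matrix (Fin 3) (Fin 3) ℤ)ˣ) (ρ : Fin 3 → ℂ) (μ : ℂ) (hμ : μ ≠ 0)
    (h : ρ ᵥ* mC U = μ • ρ) (i : ℤ) :
    ρ ᵥ* mC ((U ^ i : (Matrix (Fin 3) (Fin 3) ℤ)ˣ) : Matrix (Fin 3) (Fin 3) ℤ) = μ ^ i • ρ := by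
  have hinv : ρ ᵥ* mC ((U⁻¹ : (Matrix (Fin 3) (Fin 3) ℤ)ˣ) : Matrix (Fin 3) (Fin 3) ℤ) =
      μ⁻¹ • ρ := by
    have h1 : ρ ᵥ* mC ((U * U⁻¹ : (Matrix (Fin 3) (Fin 3) ℤ)ˣ) : Matrix (Fin 3) (Fin 3) ℤ) = ρ := by
      rw [mul_inv_cancel, Units.val_one, mC_one, vecMul_one]
    rw [Units.val_mul, mC_mul, ← vecMul_vecMul, h, smul_vecMul] at h1
    rw [eq_inv_smul_iff₀ hμ]
    exact h1
  induction i using Int.induction_on with
  | zero => rw [zpow_zero, Units.val_one, mC_one, vecMul_one, zpow_zero, one_smul]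
  | succ i ih =>
    rw [_root_.zpow_add_one, Units.val_mul, mC_mul, ← vecMul_vecMul, ih, smul_vecMul, h, smul_smul,
      zpow_add_one₀ hμ]
  | pred i ih =>
    rw [_root_.zpow_sub_one, Units.val_mul, mC_mul, ← vecMul_vecMul, ih, smul_vecMul, hinv, smul_smul,
      zpow_sub_one₀ hμ]

/-- powers of a positive number different from one are unbounded in one direction -/
lemma zpow_unbounded {q C : ℝ} (hq : 0 < q) (h : ∀ i : ℤ, q ^ i ≤ C) : q = 1 := by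
  by_contra hne
  rcases lt_or_gt_of_ne hne with h1 | h1
  · obtain ⟨n, hn⟩ := pow_unbounded_of_one_lt C ((one_lt_inv₀ hq).2 h1)
    have h2 := h (-(n : ℤ))
    rw [_root_.zpow_neg, zpow_natCast, ← inv_pow] at h2
    exact absurd h2 (not_le.2 hn)
  · obtain ⟨n, hn⟩ := pow_unbounded_of_one_lt C h1
    have h2 := h (n : ℤ)
    rw [zpow_natCast] at h2
    exact absurd h2 (not_le.2 hn)

/-- **Growth argument.** -/
theorem growth (U : (Matrix (Fin 3) (Fin 3) ℤ)ˣ) (h : Matrix (Fin 3) (Fin 3) ℝ)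
    (hdet : h.det ≠ 0) (B : ℝ)
    (hB : ∀ i : ℤ, ∏ r, rs (h * zR ((U ^ i : (Matrix (Fin 3) (Fin 3) ℤ)ˣ) :
      Matrix (Fin 3) (Fin 3) ℤ)) r ≤ B)
    (K : IntermediateField ℚ ℝ) [FiniteDimensional ℚ K] (hK : Module.finrank ℚ K ≤ 3)
    (l : Fin 3 → K) (lam : K)
    (hlW : ∀ k, ∑ j, l j * (((U : Matrix (Fin 3) (Fin 3) ℤ) j k : ℤ) : K) = lam * l k)
    (hind : ∀ m : Fin 3 → ℤ, ∑ j, ((l j : K) : ℝ) * (m j : ℝ) = 0 → m = 0) (hlam : lam ≠ 0)
    (hmod : ∀ τ : K →+* ℂ, (∃ z : K, τ z ≠ ((z : ℝ) : ℂ)) → ‖τ lam‖ ≠ |(lam : ℝ)|) :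
    ∃ (r : Fin 3) (s : ℝ), s ≠ 0 ∧ ∀ j, s * h r j = l j := by
  classical
  obtain ⟨hNF, b, φ, hb, hφ, -⟩ := exists_unit_mats (fun j => ((l j : K) : ℝ)) K hK
    (fun j => (l j).2) hind
  have hbl : ∀ j, b j = l j := fun j => Subtype.ext (hb j)
  set μ : (K →+* ℂ) → ℂ := fun τ => τ lam with hμ
  have hμ0 : ∀ τ, μ τ ≠ 0 := fun τ => (map_ne_zero τ).2 hlam
  -- eigenvectors
  have heig : ∀ τ : K →+* ℂ, (fun j => τ (b j)) ᵥ* mC U = μ τ • (fun j => τ (b j)) := by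
    intro τ
    funext k
    have h1 := congrArg τ (hlW k)
    rw [map_sum, map_mul] at h1
    rw [Pi.smul_apply, smul_eq_mul]
    simp only [hbl]
    show ∑ j, τ (l j) * ((((U : Matrix (Fin 3) (Fin 3) ℤ) j k : ℤ)) : ℂ) = _
    rw [← h1]
    refine Finset.sum_congr rfl fun j _ => ?_
    rw [map_mul, map_intCast]
  have heigz : ∀ (τ : K →+* ℂ) (i : ℤ) (k : Fin 3), ∑ j, τ (b j) *
      ((((U ^ i : (Matrix (Fin 3) (Fin 3) ℤ)ˣ) : Matrix (Fin 3) (Fin 3) ℤ) j k : ℤ) : ℂ) =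
      μ τ ^ i * τ (b k) := by
    intro τ i k
    have h1 := congrFun (vec_zpow U _ _ (hμ0 τ) (heig τ) i) k
    rw [Pi.smul_apply, smul_eq_mul] at h1
    exact h1
  choose X hX using fun r : Fin 3 => embed_surj b (fun j => ((h r j : ℝ) : ℂ))
  choose y hy using fun τ : K →+* ℂ => embed_surj' b (Pi.single τ (1 : ℂ))
  -- extraction of a coefficient
  have hext : ∀ (r : Fin 3) (τ : K →+* ℂ) (i : ℤ), ∑ k, y τ k * (((h * zR ((U ^ i :
      (Matrix (Fin 3) (Fin 3) ℤ)ˣ) : Matrix (Fin 3) (Fin 3) ℤ)) r k : ℝ) : ℂ) =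
      X r τ * μ τ ^ i := by
    intro r τ i
    have h1 : ∀ k, (((h * zR ((U ^ i : (Matrix (Fin 3) (Fin 3) ℤ)ˣ) :
        Matrix (Fin 3) (Fin 3) ℤ)) r k : ℝ) : ℂ) = ∑ σ : K →+* ℂ, X r σ * (μ σ ^ i * σ (b k)) := by
      intro k
      rw [Matrix.mul_apply, Complex.ofReal_sum]
      simp only [Complex.ofReal_mul, hX]
      calc ∑ j, (∑ σ : K →+* ℂ, X r σ * σ (b j)) * (((zR ((U ^ i :
              (Matrix (Fin 3) (Fin 3) ℤ)ˣ) : Matrix (Fin 3) (Fin 3) ℤ)) j k : ℝ) : ℂ)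
          = ∑ j, ∑ σ : K →+* ℂ, X r σ * (σ (b j) * ((((U ^ i : (Matrix (Fin 3) (Fin 3) ℤ)ˣ) :
              Matrix (Fin 3) (Fin 3) ℤ) j k : ℤ) : ℂ)) := by
            refine Finset.sum_congr rfl fun j _ => ?_
            rw [Finset.sum_mul]
            refine Finset.sum_congr rfl fun σ _ => ?_
            simp only [zR, Matrix.map_apply, Complex.ofReal_intCast]
            ring
        _ = ∑ σ : K →+* ℂ, X r σ * ∑ j, σ (b j) * ((((U ^ i : (Matrix (Fin 3) (Fin 3) ℤ)ˣ) :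
              Matrix (Fin 3) (Fin 3) ℤ) j k : ℤ) : ℂ) := by
            rw [Finset.sum_comm]
            refine Finset.sum_congr rfl fun σ _ => ?_
            rw [Finset.mul_sum]
        _ = _ := Finset.sum_congr rfl fun σ _ => by rw [heigz]
    simp only [h1]
    calc ∑ k, y τ k * ∑ σ : K →+* ℂ, X r σ * (μ σ ^ i * σ (b k))
        = ∑ σ : K →+* ℂ, X r σ * μ σ ^ i * ∑ k, y τ k * σ (b k) := by
          simp only [Finset.mul_sum]
          rw [Finset.sum_comm]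
          refine Finset.sum_congr rfl fun σ _ => Finset.sum_congr rfl fun k _ => ?_
          ring
      _ = X r τ * μ τ ^ i := by
          simp only [hy]
          rw [Finset.sum_eq_single τ]
          · rw [Pi.single_eq_same, mul_one]
          · intro σ _ hσ
            rw [Pi.single_eq_of_ne hσ, mul_zero]
          · intro hcon
            exact absurd (Finset.mem_univ _) hcon
  set D : ℝ := ∑ τ : K →+* ℂ, ∑ k, ‖y τ k‖ + 1 with hD
  have hD0 : 0 < D := by positivity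
  have hDy : ∀ τ k, ‖y τ k‖ ≤ D := by
    intro τ k
    have h1 : ‖y τ k‖ ≤ ∑ τ : K →+* ℂ, ∑ k, ‖y τ k‖ := by
      refine (Finset.single_le_sum (f := fun k => ‖y τ k‖) (fun k _ => norm_nonneg _)
        (Finset.mem_univ k)).trans ?_
      exact Finset.single_le_sum (f := fun τ : K →+* ℂ => ∑ k, ‖y τ k‖)
        (fun τ _ => Finset.sum_nonneg fun k _ => norm_nonneg _) (Finset.mem_univ τ)
    rw [hD]; linarith
  set R : ℤ → Fin 3 → ℝ := fun i r => rs (h * zR ((U ^ i : (Matrix (Fin 3) (Fin 3) ℤ)ˣ) :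
      Matrix (Fin 3) (Fin 3) ℤ)) r with hR
  have hR0 : ∀ i r, 0 ≤ R i r := fun i r => rs_nonneg _ _
  have hlow : ∀ r τ (i : ℤ), ‖X r τ‖ * ‖μ τ‖ ^ i ≤ D * R i r := by
    intro r τ i
    rw [← norm_zpow, ← norm_mul, ← hext]
    refine (norm_sum_le _ _).trans ?_
    simp only [hR, rs]
    rw [Finset.mul_sum]
    refine Finset.sum_le_sum fun k _ => ?_
    rw [norm_mul, Complex.norm_real, Real.norm_eq_abs]
    exact mul_le_mul_of_nonneg_right (hDy τ k) (abs_nonneg _)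
  -- a permutation
  have hcard : Fintype.card (Fin 3) = Fintype.card (K →+* ℂ) := by
    rw [NumberField.Embeddings.card K ℂ, Module.finrank_eq_card_basis b]
  let e : Fin 3 ≃ (K →+* ℂ) := Fintype.equivOfCardEq hcard
  set X' : Matrix (Fin 3) (Fin 3) ℂ := fun r t => X r (e t) with hX'
  set L' : Matrix (Fin 3) (Fin 3) ℂ := fun t k => (e t) (b k) with hL'
  have hXL : h.map ((↑) : ℝ → ℂ) = X' * L' := by
    ext r k
    rw [Matrix.map_apply, Matrix.mul_apply, hX]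
    exact (Fintype.sum_equiv e _ _ fun t => rfl).symm
  have hdetC : (h.map ((↑) : ℝ → ℂ)).det ≠ 0 := by
    have h1 := (Complex.ofRealHom).map_det h
    rw [RingHom.mapMatrix_apply] at h1
    have h2 : (h.map ((↑) : ℝ → ℂ)).det = ((h.det : ℝ) : ℂ) := h1.symm
    rw [h2]
    exact_mod_cast hdet
  rw [hXL, det_mul] at hdetC
  have hX'det : X'.det ≠ 0 := left_ne_zero_of_mul hdetC
  have hL'det : L'.det ≠ 0 := right_ne_zero_of_mul hdetC
  obtain ⟨σ, hσ⟩ : ∃ σ : Equiv.Perm (Fin 3), ∏ i, X' (σ i) i ≠ 0 := by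
    by_contra hcon
    push Not at hcon
    apply hX'det
    rw [det_apply]
    refine Finset.sum_eq_zero fun σ _ => ?_
    rw [hcon σ, smul_zero]
  have hσ' : ∀ t, X (σ t) (e t) ≠ 0 := fun t => (Finset.prod_ne_zero_iff.1 hσ) t (Finset.mem_univ t)
  have hprodμ : ∏ t, ‖μ (e t)‖ = 1 := by
    have h1 : L' * mC U = diagonal (fun t => μ (e t)) * L' := by
      ext t k
      rw [diagonal_mul]
      have h2 := congrFun (heig (e t)) k
      rw [Pi.smul_apply, smul_eq_mul] at h2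
      exact h2
    have h2 := congrArg Matrix.det h1
    rw [det_mul, det_mul, det_diagonal, mul_comm] at h2
    have h3 : (mC U).det = ∏ t, μ (e t) := mul_right_cancel₀ hL'det h2
    rw [← norm_prod, ← h3]
    have h4 : (mC U).det = (((U : Matrix (Fin 3) (Fin 3) ℤ).det : ℤ) : ℂ) := by
      have h5 := (Int.castRingHom ℂ).map_det (U : Matrix (Fin 3) (Fin 3) ℤ)
      rw [RingHom.mapMatrix_apply] at h5
      exact h5.symm
    rw [h4]
    have h5 : IsUnit (U : Matrix (Fin 3) (Fin 3) ℤ).det :=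
      (Matrix.isUnit_iff_isUnit_det _).1 U.isUnit
    rcases Int.isUnit_iff.1 h5 with h6 | h6 <;> rw [h6] <;> simp
  -- lower bounds for the rows
  set c : Fin 3 → ℝ := fun t => ‖X (σ t) (e t)‖ / D with hc
  have hc0 : ∀ t, 0 < c t := fun t => div_pos (norm_pos_iff.2 (hσ' t)) hD0
  have hlow2 : ∀ t (i : ℤ), c t * ‖μ (e t)‖ ^ i ≤ R i (σ t) := by
    intro t i
    have h1 := hlow (σ t) (e t) i
    rw [hc]
    simp only
    rw [div_mul_eq_mul_div, div_le_iff₀ hD0]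
    linarith
  have hm0 : ∀ t, 0 < ‖μ (e t)‖ := fun t => norm_pos_iff.2 (hμ0 _)
  set t₀ : Fin 3 := e.symm φ with ht₀
  have het₀ : e t₀ = φ := e.apply_symm_apply φ
  have hup : ∃ C : ℝ, ∀ i : ℤ, R i (σ t₀) ≤ C * ‖μ φ‖ ^ i := by
    refine ⟨B / ∏ t ∈ Finset.univ.erase t₀, c t, fun i => ?_⟩
    have hBi : R i (σ t₀) * ∏ t ∈ Finset.univ.erase t₀, R i (σ t) ≤ B := by
      rw [Finset.mul_prod_erase Finset.univ (fun t => R i (σ t)) (Finset.mem_univ t₀)]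
      rw [Equiv.prod_comp σ (fun r => R i r)]
      exact hB i
    have h1 : ∏ t ∈ Finset.univ.erase t₀, (c t * ‖μ (e t)‖ ^ i) ≤
        ∏ t ∈ Finset.univ.erase t₀, R i (σ t) :=
      Finset.prod_le_prod (fun t _ => mul_nonneg (hc0 t).le (zpow_nonneg (hm0 t).le _))
        fun t _ => hlow2 t i
    rw [Finset.prod_mul_distrib, Finset.prod_zpow] at h1
    have h2 : (∏ t ∈ Finset.univ.erase t₀, ‖μ (e t)‖) = ‖μ φ‖⁻¹ := by
      have h3 := Finset.mul_prod_erase Finset.univ (fun t => ‖μ (e t)‖) (Finset.mem_univ t₀)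
      rw [hprodμ, het₀] at h3
      exact eq_inv_of_mul_eq_one_right h3
    rw [h2, _root_.inv_zpow] at h1
    have hcp : 0 < ∏ t ∈ Finset.univ.erase t₀, c t := Finset.prod_pos fun t _ => hc0 t
    have hmφ : 0 < ‖μ φ‖ := norm_pos_iff.2 (hμ0 _)
    have hmi : 0 < ‖μ φ‖ ^ i := zpow_pos hmφ i
    have h4 : R i (σ t₀) * ((∏ t ∈ Finset.univ.erase t₀, c t) * (‖μ φ‖ ^ i)⁻¹) ≤ B :=
      (mul_le_mul_of_nonneg_left h1 (hR0 _ _)).trans hBi
    rw [div_mul_eq_mul_div, le_div_iff₀ hcp]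
    have h5 : R i (σ t₀) * ((∏ t ∈ Finset.univ.erase t₀, c t) * (‖μ φ‖ ^ i)⁻¹) * ‖μ φ‖ ^ i ≤
        B * ‖μ φ‖ ^ i := mul_le_mul_of_nonneg_right h4 hmi.le
    have h6 : R i (σ t₀) * ((∏ t ∈ Finset.univ.erase t₀, c t) * (‖μ φ‖ ^ i)⁻¹) * ‖μ φ‖ ^ i =
        R i (σ t₀) * ∏ t ∈ Finset.univ.erase t₀, c t := by
      field_simp
    rwa [h6] at h5
  obtain ⟨C, hC⟩ := hup
  -- the other coefficients of the row vanish
  have hzero : ∀ τ : K →+* ℂ, τ ≠ φ → X (σ t₀) τ = 0 := by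
    intro τ hτ
    by_contra hne
    have hX0 : 0 < ‖X (σ t₀) τ‖ := norm_pos_iff.2 hne
    have hmφ : 0 < ‖μ φ‖ := norm_pos_iff.2 (hμ0 _)
    have hmτ : 0 < ‖μ τ‖ := norm_pos_iff.2 (hμ0 _)
    have h1 : ∀ i : ℤ, (‖μ τ‖ / ‖μ φ‖) ^ i ≤ D * C / ‖X (σ t₀) τ‖ := by
      intro i
      have h2 := hlow (σ t₀) τ i
      have h3 := mul_le_mul_of_nonneg_left (hC i) hD0.le
      have h4 : ‖X (σ t₀) τ‖ * ‖μ τ‖ ^ i ≤ D * (C * ‖μ φ‖ ^ i) := h2.trans h3
      have hmi : 0 < ‖μ φ‖ ^ i := zpow_pos hmφ i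
      rw [div_zpow, div_le_div_iff₀ hmi hX0]
      linarith
    have h2 := zpow_unbounded (div_pos hmτ hmφ) h1
    rw [div_eq_one_iff_eq hmφ.ne'] at h2
    refine hmod τ ?_ ?_
    · by_contra hcon
      push Not at hcon
      apply hτ
      ext z
      rw [hcon z, hφ z]
    · rw [hμ] at h2
      simp only at h2
      rw [h2, hφ, Complex.norm_real, Real.norm_eq_abs]
  have hrow : ∀ j, ((h (σ t₀) j : ℝ) : ℂ) = X (σ t₀) φ * (((l j : K) : ℝ) : ℂ) := by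
    intro j
    rw [hX, Finset.sum_eq_single φ]
    · rw [hφ, hbl]
    · intro τ _ hτ
      rw [hzero τ hτ, zero_mul]
    · intro hcon
      exact absurd (Finset.mem_univ _) hcon
  obtain ⟨j₀, hj₀⟩ : ∃ j, ((l j : K) : ℝ) ≠ 0 := by
    by_contra hcon
    push Not at hcon
    have := hind (Pi.single 0 1) (by simp [hcon])
    have := congrFun this 0
    simp at this
  set x : ℝ := h (σ t₀) j₀ / ((l j₀ : K) : ℝ) with hx
  have hXx : X (σ t₀) φ = (x : ℂ) := by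
    have h1 := hrow j₀
    rw [hx]
    push_cast
    rw [h1, mul_div_assoc, div_self (by exact_mod_cast hj₀), mul_one]
  have hrow2 : ∀ j, h (σ t₀) j = x * ((l j : K) : ℝ) := by
    intro j
    have h1 := hrow j
    rw [hXx] at h1
    exact_mod_cast h1
  have hx0 : x ≠ 0 := by
    intro h0
    apply hdet
    refine Matrix.det_eq_zero_of_row_eq_zero (σ t₀) fun j => ?_
    rw [hrow2, h0, zero_mul]
  refine ⟨σ t₀, x⁻¹, inv_ne_zero hx0, fun j => ?_⟩
  rw [hrow2, ← mul_assoc, inv_mul_cancel₀ hx0, one_mul]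

end Pool.Agent.N759.LC
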