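import Mathlib
import Pool.Agent.N759.LC.Main1
import Pool.Agent.N759.LC.Word1
import Pool.Agent.N759.LC.Word2

/-! # Bases of good approximations with long powers of a fixed word -/

open Filter Topology Matrix NumberField

namespace Pool.Agent.N759.LC

open H715R2

lemma rs_diag {a : Fin 3 → ℝ} (ha : ∀ i, 0 < a i) (A : Matrix (Fin 3) (Fin 3) ℝ) (r : Fin 3) :
    rs (diagonal a * A) r = a r * rs A r := by
  unfold rs
  rw [Finset.mul_sum]
  refine Finset.sum_congr rfl fun k _ => ?_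
  rw [diagonal_mul, abs_mul, abs_of_pos (ha r)]

lemma prod_rs_sc (α β : ℝ) {X Y X' Y' : ℝ} (hX : 0 < X) (hY : 0 < Y) (hX' : 0 < X') (hY' : 0 < Y')
    (V M : Matrix (Fin 3) (Fin 3) ℤ) :
    ∏ r, rs (sc α β X Y V * zR M) r = ∏ r, rs (sc α β X' Y' (V * M)) r := by
  have h1 : sc α β X Y V * zR M = diagonal (av X Y) * (LLm α β * zR V * zR M) := by
    rw [sc_eq]; simp only [Matrix.mul_assoc]
  have h2 : sc α β X' Y' (V * M) = diagonal (av X' Y') * (LLm α β * zR V * zR M) := by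
    rw [sc_eq, zR_mul]; simp only [Matrix.mul_assoc]
  rw [h1, h2]
  simp only [rs_diag (av_pos hX hY), rs_diag (av_pos hX' hY')]
  rw [Finset.prod_mul_distrib, Finset.prod_mul_distrib, av_prod hX hY, av_prod hX' hY']

lemma continuous_rs (M : Matrix (Fin 3) (Fin 3) ℝ) :
    Continuous (fun h : Matrix (Fin 3) (Fin 3) ℝ => ∏ r, rs (h * M) r) := by
  refine continuous_finsetProd _ fun r _ => ?_
  unfold rs
  refine continuous_finsetSum _ fun k _ => ?_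
  refine continuous_abs.comp ?_
  exact (continuous_apply_apply r k).comp (continuous_id.matrix_mul continuous_const)

/-- the limit at the centres of long powers -/
theorem word_limit {α β C : ℝ} (U : (Matrix (Fin 3) (Fin 3) ℤ)ˣ)
    (h : ∀ m : ℕ, ∃ V : Matrix (Fin 3) (Fin 3) ℤ, |V.det| = 1 ∧ ∀ j : ℕ, j ≤ m →
      ∃ X Y : ℝ, (m : ℝ) ≤ X ∧ (m : ℝ) ≤ Y ∧
        ∀ i k, |sc α β X Y (V * (U : Matrix (Fin 3) (Fin 3) ℤ) ^ j) i k| ≤ C) :
    ∃ h' ∈ YY (LLm α β), ∀ i : ℤ, ∏ r, rs (h' * zR ((U ^ i : (Matrix (Fin 3) (Fin 3) ℤ)ˣ) :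
      Matrix (Fin 3) (Fin 3) ℤ)) r ≤ (3 * C) ^ 3 := by
  choose V hV hgood using fun m : ℕ => h (2 * (m + 1))
  choose X Y hX hY hC using fun (m j : ℕ) (hj : j ≤ 2 * (m + 1)) => hgood m j hj
  have hX0 : ∀ m j hj, 0 < X m j hj := fun m j hj => by
    have h1 := hX m j hj
    push_cast at h1
    have : (0 : ℝ) ≤ m := Nat.cast_nonneg m
    linarith
  have hY0 : ∀ m j hj, 0 < Y m j hj := fun m j hj => by
    have h1 := hY m j hj
    push_cast at h1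
    have : (0 : ℝ) ≤ m := Nat.cast_nonneg m
    linarith
  have hUdet : |(U : Matrix (Fin 3) (Fin 3) ℤ).det| = 1 :=
    Int.isUnit_iff_abs_eq.1 ((Matrix.isUnit_iff_isUnit_det _).1 U.isUnit)
  set x : ℕ → Matrix (Fin 3) (Fin 3) ℝ := fun m =>
    sc α β (X m (m + 1) (by omega)) (Y m (m + 1) (by omega))
      (V m * (U : Matrix (Fin 3) (Fin 3) ℤ) ^ (m + 1)) with hx
  have hxO : ∀ m, x m ∈ OrbN (LLm α β) m := by
    intro m
    refine OrbN_anti _ (show m ≤ 2 * (m + 1) by omega)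
      (sc_mem (by omega) (hX m _ _) (hY m _ _) ?_)
    rw [det_mul, det_pow, abs_mul, abs_pow, hUdet, hV, one_pow, one_mul]
  obtain ⟨h', φ, hφ, hlim⟩ := exists_subseq x C (fun m => hC m _ _)
  refine ⟨h', limit_mem_YY (fun n => subset_closure (hxO n)) hφ hlim, fun i => ?_⟩
  have h1 := ((continuous_rs (zR ((U ^ i : (Matrix (Fin 3) (Fin 3) ℤ)ˣ) :
    Matrix (Fin 3) (Fin 3) ℤ))).tendsto h').comp hlim
  refine le_of_tendsto h1 ?_
  filter_upwards [eventually_ge_atTop i.natAbs] with n hn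
  have hn' : i.natAbs ≤ φ n := hn.trans hφ.le_apply
  set m := φ n with hm
  -- the index `m + 1 + i`
  obtain ⟨j, hj⟩ : ∃ j : ℕ, (j : ℤ) = m + 1 + i := ⟨((m : ℤ) + 1 + i).toNat, by
    rw [Int.toNat_of_nonneg]; omega⟩
  have hj2 : j ≤ 2 * (m + 1) := by omega
  have h2 : (V m * (U : Matrix (Fin 3) (Fin 3) ℤ) ^ (m + 1)) *
      ((U ^ i : (Matrix (Fin 3) (Fin 3) ℤ)ˣ) : Matrix (Fin 3) (Fin 3) ℤ) =
      V m * (U : Matrix (Fin 3) (Fin 3) ℤ) ^ j := by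
    rw [Matrix.mul_assoc]
    congr 1
    have h3 : U ^ (m + 1) * U ^ i = U ^ j := by
      rw [← zpow_natCast U (m + 1), ← zpow_natCast U j, ← _root_.zpow_add, hj]
      push_cast
      rfl
    have h4 := congrArg (fun u : (Matrix (Fin 3) (Fin 3) ℤ)ˣ => (u : Matrix (Fin 3) (Fin 3) ℤ)) h3
    simp only [Units.val_mul, Units.val_pow_eq_pow_val] at h4
    exact h4
  show ∏ r, rs (x m * zR ((U ^ i : (Matrix (Fin 3) (Fin 3) ℤ)ˣ) : Matrix (Fin 3) (Fin 3) ℤ)) r ≤ _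
  simp only [hx]
  rw [prod_rs_sc α β (hX0 m _ _) (hY0 m _ _) (hX0 m j hj2) (hY0 m j hj2), h2]
  have h3 : ∀ r, rs (sc α β (X m j hj2) (Y m j hj2)
      (V m * (U : Matrix (Fin 3) (Fin 3) ℤ) ^ j)) r ≤ 3 * C := by
    intro r
    unfold rs
    rw [Fin.sum_univ_three]
    have e0 := hC m j hj2 r 0
    have e1 := hC m j hj2 r 1
    have e2 := hC m j hj2 r 2
    linarith
  calc ∏ r, rs (sc α β (X m j hj2) (Y m j hj2) (V m * (U : Matrix (Fin 3) (Fin 3) ℤ) ^ j)) r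
      ≤ ∏ _r : Fin 3, (3 * C) := Finset.prod_le_prod (fun r _ => rs_nonneg _ _) fun r _ => h3 r
    _ = (3 * C) ^ 3 := by rw [Finset.prod_const, Finset.card_univ, Fintype.card_fin]

/-- eigenvalue `±1` -/
theorem word_reducible {h : Matrix (Fin 3) (Fin 3) ℝ} {ν : ℝ} (hν0 : 0 < ν) (hnu : HasNu h ν)
    (hdet : h.det ≠ 0) (U : (Matrix (Fin 3) (Fin 3) ℤ)ˣ) (B : ℝ)
    (hB : ∀ i : ℤ, ∏ r, rs (h * zR ((U ^ i : (Matrix (Fin 3) (Fin 3) ℤ)ˣ) :
      Matrix (Fin 3) (Fin 3) ℤ)) r ≤ B) (m : Fin 3 → ℤ) (hm : m ≠ 0)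
    (hU : (U : Matrix (Fin 3) (Fin 3) ℤ) *ᵥ m = m ∨ (U : Matrix (Fin 3) (Fin 3) ℤ) *ᵥ m = -m) :
    ∃ n : ℕ, 0 < n ∧ U ^ n = 1 := by
  classical
  have hpow : ∀ i : ℕ, ((U ^ i : (Matrix (Fin 3) (Fin 3) ℤ)ˣ) : Matrix (Fin 3) (Fin 3) ℤ) *ᵥ m = m ∨
      ((U ^ i : (Matrix (Fin 3) (Fin 3) ℤ)ˣ) : Matrix (Fin 3) (Fin 3) ℤ) *ᵥ m = -m := by
    intro i
    induction i with
    | zero => left; rw [pow_zero, Units.val_one, one_mulVec]
    | succ i ih =>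
      rw [pow_succ', Units.val_mul, ← mulVec_mulVec]
      rcases ih with h1 | h1 <;> rw [h1]
      · exact hU
      · rw [mulVec_neg]
        rcases hU with h2 | h2 <;> rw [h2]
        · right; rfl
        · left; rw [neg_neg]
  set Mv : ℝ := ∑ k, |(m k : ℝ)| + 1 with hMv
  have hMv0 : 0 < Mv := by positivity
  set d : Fin 3 → ℝ := fun r => |(h *ᵥ iR m) r| with hd
  have hd0 : ∀ r, 0 < d r := by
    intro r
    rw [hd]
    simp only
    rw [abs_pos]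
    intro h0
    have h1 := hnu m hm
    have h2 : FF h (iR m) = 0 := by
      rw [FF_eq]
      exact Finset.prod_eq_zero (Finset.mem_univ r) h0
    rw [h2, abs_zero] at h1
    exact absurd h1 (not_le.2 hν0)
  set Rn : ℕ → Fin 3 → ℝ := fun i r => rs (h * zR ((U ^ i : (Matrix (Fin 3) (Fin 3) ℤ)ˣ) :
    Matrix (Fin 3) (Fin 3) ℤ)) r with hRn
  have hlow : ∀ i r, d r / Mv ≤ Rn i r := by
    intro i r
    rw [div_le_iff₀ hMv0]
    have h1 : d r = |((h * zR ((U ^ i : (Matrix (Fin 3) (Fin 3) ℤ)ˣ) :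
        Matrix (Fin 3) (Fin 3) ℤ)) *ᵥ iR m) r| := by
      rw [← mulVec_mulVec, zR_mulVec_iR]
      rcases hpow i with h2 | h2 <;> rw [h2]
      have h3 : iR (-m) = -iR m := by funext k; simp [iR]
      rw [h3, mulVec_neg, Pi.neg_apply, abs_neg]
    rw [h1]
    unfold mulVec dotProduct
    refine (Finset.abs_sum_le_sum_abs _ _).trans ?_
    simp only [hRn, rs]
    rw [Finset.sum_mul]
    refine Finset.sum_le_sum fun k _ => ?_
    rw [abs_mul]
    refine mul_le_mul_of_nonneg_left ?_ (abs_nonneg _)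
    have := Finset.single_le_sum (f := fun k => |(m k : ℝ)|) (fun k _ => abs_nonneg _)
      (Finset.mem_univ k)
    rw [hMv]
    show |(m k : ℝ)| ≤ _
    linarith
  have hBn : ∀ i : ℕ, ∏ r, Rn i r ≤ B := by
    intro i
    have h1 := hB (i : ℤ)
    rw [zpow_natCast] at h1
    exact h1
  -- upper bound
  obtain ⟨E, hE⟩ : ∃ E : ℝ, ∀ i r, Rn i r ≤ E := by
    have h1 : ∀ r, ∃ E : ℝ, ∀ i, Rn i r ≤ E := by
      intro r
      have hcp : 0 < ∏ s ∈ Finset.univ.erase r, (d s / Mv) :=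
        Finset.prod_pos fun s _ => div_pos (hd0 s) hMv0
      refine ⟨B / ∏ s ∈ Finset.univ.erase r, (d s / Mv), fun i => ?_⟩
      rw [le_div_iff₀ hcp]
      have h2 : ∏ s ∈ Finset.univ.erase r, (d s / Mv) ≤ ∏ s ∈ Finset.univ.erase r, Rn i s :=
        Finset.prod_le_prod (fun s _ => (div_pos (hd0 s) hMv0).le) fun s _ => hlow i s
      have h3 := mul_le_mul_of_nonneg_left h2 (rs_nonneg (h * zR ((U ^ i :
        (Matrix (Fin 3) (Fin 3) ℤ)ˣ) : Matrix (Fin 3) (Fin 3) ℤ)) r)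
      refine h3.trans ?_
      have h4 := hBn i
      rwa [← Finset.mul_prod_erase Finset.univ (fun s => Rn i s) (Finset.mem_univ r)] at h4
    choose E hE using h1
    refine ⟨∑ r, |E r|, fun i r => ((hE r i).trans (le_abs_self _)).trans ?_⟩
    exact Finset.single_le_sum (f := fun r => |E r|) (fun r _ => abs_nonneg _) (Finset.mem_univ r)
  have hhu : IsUnit h.det := isUnit_iff_ne_zero.2 hdet
  set G : ℝ := ∑ i, ∑ j, |h⁻¹ i j| with hG
  have hGb : ∀ i j, |h⁻¹ i j| ≤ G := by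
    intro i j
    refine (Finset.single_le_sum (f := fun j => |h⁻¹ i j|) (fun j _ => abs_nonneg _)
      (Finset.mem_univ j)).trans ?_
    exact Finset.single_le_sum (f := fun i => ∑ j, |h⁻¹ i j|)
      (fun i _ => Finset.sum_nonneg fun j _ => abs_nonneg _) (Finset.mem_univ i)
  have hG0 : 0 ≤ G := Finset.sum_nonneg fun i _ => Finset.sum_nonneg fun j _ => abs_nonneg _
  have hE0 : 0 ≤ E := (rs_nonneg _ _).trans (hE 0 0)
  have hbd : ∀ (i : ℕ) a c, |((((U ^ i : (Matrix (Fin 3) (Fin 3) ℤ)ˣ) :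
      Matrix (Fin 3) (Fin 3) ℤ) a c : ℤ) : ℝ)| ≤ 3 * (G * E) := by
    intro i a c
    set Z := zR ((U ^ i : (Matrix (Fin 3) (Fin 3) ℤ)ˣ) : Matrix (Fin 3) (Fin 3) ℤ) with hZ
    have h1 : Z = h⁻¹ * (h * Z) := by
      rw [← Matrix.mul_assoc, Matrix.nonsing_inv_mul _ hhu, Matrix.one_mul]
    have h2 : |Z a c| ≤ 3 * (G * E) := by
      rw [h1, Matrix.mul_apply]
      refine (Finset.abs_sum_le_sum_abs _ _).trans ?_
      have h3 : ∑ k, |h⁻¹ a k * (h * Z) k c| ≤ ∑ _k : Fin 3, G * E := by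
        refine Finset.sum_le_sum fun k _ => ?_
        rw [abs_mul]
        refine mul_le_mul (hGb a k) ?_ (abs_nonneg _) hG0
        refine le_trans ?_ (hE i k)
        exact Finset.single_le_sum (f := fun c => |(h * Z) k c|) (fun c _ => abs_nonneg _)
          (Finset.mem_univ c)
      refine h3.trans (le_of_eq ?_)
      rw [Finset.sum_const, Finset.card_univ, Fintype.card_fin, nsmul_eq_mul]
      norm_num
    exact h2
  -- finiteness
  have hfin : (Set.range fun i : ℕ => ((U ^ i : (Matrix (Fin 3) (Fin 3) ℤ)ˣ) :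
      Matrix (Fin 3) (Fin 3) ℤ)).Finite := by
    have h1 : ({M : Fin 3 → Fin 3 → ℤ | ∀ a c, M a c ∈ Set.Icc (-⌈3 * (G * E)⌉) ⌈3 * (G * E)⌉}).Finite := by
      have h2 : ({v : Fin 3 → ℤ | ∀ c, v c ∈ Set.Icc (-⌈3 * (G * E)⌉) ⌈3 * (G * E)⌉}).Finite :=
        Set.Finite.pi' fun _ => Set.finite_Icc _ _
      exact Set.Finite.pi' fun _ => h2
    refine h1.subset ?_
    rintro _ ⟨i, rfl⟩ a c
    have h2 := abs_le.1 (hbd i a c)
    have h3 := Int.le_ceil (3 * (G * E))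
    constructor
    · have : ((-⌈3 * (G * E)⌉ : ℤ) : ℝ) ≤ ((((U ^ i : (Matrix (Fin 3) (Fin 3) ℤ)ˣ) :
        Matrix (Fin 3) (Fin 3) ℤ) a c : ℤ) : ℝ) := by
        rw [Int.cast_neg]
        linarith [h2.1]
      exact_mod_cast this
    · have : ((((U ^ i : (Matrix (Fin 3) (Fin 3) ℤ)ˣ) : Matrix (Fin 3) (Fin 3) ℤ) a c : ℤ) : ℝ) ≤
        ((⌈3 * (G * E)⌉ : ℤ) : ℝ) := h2.2.trans h3
      exact_mod_cast this
  have hninj : ¬ Function.Injective (fun i : ℕ => ((U ^ i : (Matrix (Fin 3) (Fin 3) ℤ)ˣ) :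
      Matrix (Fin 3) (Fin 3) ℤ)) := by
    intro hinj
    exact (Set.infinite_range_of_injective hinj) hfin
  rw [Function.Injective] at hninj
  push Not at hninj
  obtain ⟨i, j, hij, hne⟩ := hninj
  have hij' : U ^ i = U ^ j := Units.ext hij
  rcases lt_or_gt_of_ne hne with h1 | h1
  · refine ⟨j - i, by omega, ?_⟩
    have h2 : U ^ i * U ^ (j - i) = U ^ i * 1 := by
      rw [← pow_add, mul_one, hij']
      congr 1; omega
    exact mul_left_cancel h2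
  · refine ⟨i - j, by omega, ?_⟩
    have h2 : U ^ j * U ^ (i - j) = U ^ j * 1 := by
      rw [← pow_add, mul_one, ← hij']
      congr 1; omega
    exact mul_left_cancel h2

/-- **Words without eigenvalue `±1`.** -/
theorem word_all {α β C : ℝ} (U : (Matrix (Fin 3) (Fin 3) ℤ)ˣ)
    (hU : ∀ m : Fin 3 → ℤ, m ≠ 0 → (U : Matrix (Fin 3) (Fin 3) ℤ) *ᵥ m ≠ m ∧
      (U : Matrix (Fin 3) (Fin 3) ℤ) *ᵥ m ≠ -m)
    (h : ∀ m : ℕ, ∃ V : Matrix (Fin 3) (Fin 3) ℤ, |V.det| = 1 ∧ ∀ j : ℕ, j ≤ m →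
      ∃ X Y : ℝ, (m : ℝ) ≤ X ∧ (m : ℝ) ≤ Y ∧
        ∀ i k, |sc α β X Y (V * (U : Matrix (Fin 3) (Fin 3) ℤ) ^ j) i k| ≤ C)
    (t : ℝ) (ht : 0 ≤ t) : MapClusterPt t atTop (fL α β) := by
  have hUdet : |(U : Matrix (Fin 3) (Fin 3) ℤ).det| = 1 :=
    Int.isUnit_iff_abs_eq.1 ((Matrix.isUnit_iff_isUnit_det _).1 U.isUnit)
  obtain ⟨h', hh', hB⟩ := word_limit U h
  have hdet : |h'.det| = 1 := by rw [abs_det_closure (YY_subset _ hh'), LLm_det]
  have hdet0 : h'.det ≠ 0 := by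
    intro h0
    rw [h0, abs_zero] at hdet
    exact zero_ne_one hdet
  obtain ⟨K, hfd, l, lam, hK, hlW, hind, hlam, hmod⟩ := exists_eigen _ hUdet hU
  obtain ⟨r, s, hs, hrow⟩ := growth U h' hdet0 _ hB K hK l lam hlW hind hlam hmod
  obtain ⟨h'', hh'', hV⟩ := row_dense hh' r s hs K hK (by intro j; rw [hrow]; exact (l j).2) (by
    intro m hm
    apply hind m
    have h1 : s * ∑ j, h' r j * (m j : ℝ) = 0 := by rw [hm, mul_zero]
    rw [← h1, Finset.mul_sum]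
    refine Finset.sum_congr rfl fun j _ => ?_
    rw [← hrow]; ring)
  exact all_cluster hh'' hV t ht

/-- **Words of infinite order.** -/
theorem word_LC {α β C : ℝ} (U : (Matrix (Fin 3) (Fin 3) ℤ)ˣ) (hinf : ∀ n : ℕ, 0 < n → U ^ n ≠ 1)
    (h : ∀ m : ℕ, ∃ V : Matrix (Fin 3) (Fin 3) ℤ, |V.det| = 1 ∧ ∀ j : ℕ, j ≤ m →
      ∃ X Y : ℝ, (m : ℝ) ≤ X ∧ (m : ℝ) ≤ Y ∧
        ∀ i k, |sc α β X Y (V * (U : Matrix (Fin 3) (Fin 3) ℤ) ^ j) i k| ≤ C)
    (ε : ℝ) (hε : 0 < ε) (N : ℕ) : ∃ q : ℕ, N ≤ q ∧ 0 < q ∧ fL α β q < ε := by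
  by_contra hcon
  push Not at hcon
  by_cases hU : ∀ m : Fin 3 → ℤ, m ≠ 0 → (U : Matrix (Fin 3) (Fin 3) ℤ) *ᵥ m ≠ m ∧
      (U : Matrix (Fin 3) (Fin 3) ℤ) *ᵥ m ≠ -m
  · have h3 := word_all U hU h 0 le_rfl
    rw [mapClusterPt_iff_frequently] at h3
    have h4 := h3 (Set.Iio ε) (Iio_mem_nhds hε)
    rw [frequently_atTop] at h4
    obtain ⟨q, hq, hq2⟩ := h4 (N + 1)
    exact absurd hq2 (not_lt.2 (hcon q (by omega) (by omega)))
  · have hU' : ∃ m : Fin 3 → ℤ, m ≠ 0 ∧ ((U : Matrix (Fin 3) (Fin 3) ℤ) *ᵥ m = m ∨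
        (U : Matrix (Fin 3) (Fin 3) ℤ) *ᵥ m = -m) := by
      by_contra hc
      apply hU
      intro m hm
      constructor
      · intro h1
        exact hc ⟨m, hm, Or.inl h1⟩
      · intro h1
        exact hc ⟨m, hm, Or.inr h1⟩
    obtain ⟨m, hm, hUm⟩ := hU'
    obtain ⟨ν, hν0, hν⟩ := exists_nu hε hcon
    obtain ⟨h', hh', hB⟩ := word_limit U h
    have hdet : |h'.det| = 1 := by rw [abs_det_closure (YY_subset _ hh'), LLm_det]
    have hdet0 : h'.det ≠ 0 := by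
      intro h0
      rw [h0, abs_zero] at hdet
      exact zero_ne_one hdet
    obtain ⟨n, hn, hUn⟩ := word_reducible hν0 (YY_nu hν hh') hdet0 U _ hB m hm hUm
    exact hinf n hn hUn

end Pool.Agent.N759.LC
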